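import Pool.Agent.W901.RL.DefsL
import Pool.Agent.W901.AT.PolyT

/-!
# Numbers of right and wrong predictions
-/

set_option autoImplicit false

namespace Pool.Agent.W901.RL

open Finset Pool.Agent.NPC Pool.Agent.H579R2.Spt Pool.Agent.H251R5.PQ Pool.Agent.W901.AT

theorem excess_eq_sub (h : List (Option Bool)) : ∀ w : List Bool,
    excess h w = (right h w : ℤ) - wrong h w := by
  induction h with
  | nil => intro w; simp [excess, right, wrong]
  | cons a h ih =>
    intro w
    cases w with
    | nil => simp [excess, right, wrong]
    | cons b w =>
      have := ih w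
      unfold excess right wrong at this ⊢
      rcases a with _ | a
      · simp [this]
      · cases a <;> cases b <;> simp [this] <;> ring

theorem made_eq_add (h : List (Option Bool)) : ∀ w : List Bool, h.length = w.length →
    made h = right h w + wrong h w := by
  induction h with
  | nil => intro w hw; simp [made, right, wrong]
  | cons a h ih =>
    intro w hw
    cases w with
    | nil => simp at hw
    | cons b w =>
      have := ih w (by simpa using hw)
      unfold made right wrong at this ⊢
      rcases a with _ | a
      · simp [this]
      · cases a <;> cases b <;> simp [this] <;> ring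

theorem made_le (h : List (Option Bool)) : made h ≤ h.length := List.length_filter_le _ _

theorem right_le_made {h : List (Option Bool)} {w : List Bool} (e : h.length = w.length) :
    right h w ≤ made h := by rw [made_eq_add h w e]; omega

/-- `|right - wrong|` -/
def gap (h : List (Option Bool)) (w : List Bool) : ℕ := (right h w - wrong h w) +
  (wrong h w - right h w)

theorem gap_eq (h : List (Option Bool)) (w : List Bool) : (gap h w : ℤ) = |excess h w| := by
  rw [excess_eq_sub]
  unfold gap
  rcases le_total (right h w) (wrong h w) with h1 | h1
  · rw [abs_of_nonpos (by push_cast; omega)]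
    push_cast [Nat.cast_sub h1]
    omega
  · rw [abs_of_nonneg (by push_cast; omega)]
    push_cast [Nat.cast_sub h1]
    omega

theorem gap_sq (h : List (Option Bool)) (w : List Bool) : (gap h w : ℤ) ^ 2 = (excess h w) ^ 2 := by
  rw [gap_eq, sq_abs]

theorem gap_le {h : List (Option Bool)} {w : List Bool} (e : h.length = w.length) :
    gap h w ≤ made h := by
  rw [made_eq_add h w e]; unfold gap; omega

theorem made_poly {α : Type} [TEnc α] {h : α → List (Option Bool)} (hh : Poly h) :
    UPoly (fun a => made (h a)) := nans_poly hh

theorem right_poly {α : Type} [TEnc α] {h : α → List (Option Bool)} {w : α → List Bool}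
    (hh : Poly h) (hw : Poly w) : UPoly (fun a => right (h a) (w a)) := by
  refine UPoly.length ?_
  refine NPC.Poly.filter (p := fun _ (t : Option Bool × Bool) => decide (t.1 = some t.2))
    (NPC.Poly.zip hh hw) ?_
  exact NPC.Poly.decide_eq (NPC.Poly.fst (NPC.Poly.snd NPC.Poly.id))
    (NPC.Poly.some (NPC.Poly.snd (NPC.Poly.snd NPC.Poly.id)))

theorem wrong_poly {α : Type} [TEnc α] {h : α → List (Option Bool)} {w : α → List Bool}
    (hh : Poly h) (hw : Poly w) : UPoly (fun a => wrong (h a) (w a)) := by
  refine UPoly.length ?_
  refine NPC.Poly.filter (p := fun _ (t : Option Bool × Bool) => decide (t.1 = some (!t.2)))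
    (NPC.Poly.zip hh hw) ?_
  exact NPC.Poly.decide_eq (NPC.Poly.fst (NPC.Poly.snd NPC.Poly.id))
    (NPC.Poly.some (NPC.Poly.not (NPC.Poly.snd (NPC.Poly.snd NPC.Poly.id))))

theorem gap_poly {α : Type} [TEnc α] {h : α → List (Option Bool)} {w : α → List Bool}
    (hh : Poly h) (hw : Poly w) : Poly (fun a => gap (h a) (w a)) :=
  NPC.Poly.add (NPC.Poly.sub (right_poly hh hw).toPoly (wrong_poly hh hw).toPoly)
    (NPC.Poly.sub (wrong_poly hh hw).toPoly (right_poly hh hw).toPoly)

theorem row_length (p m : ℕ) (σ u : List Bool) : (row p m σ u).length = m := by simp [row]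

end Pool.Agent.W901.RL
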