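import Pool.Agent.W920.NL.DefsR
import Pool.Agent.H579R2.Spt.VV3
import Pool.Agent.H579R2.Spt.SPoly2

/-!
# Randomised pruned search with pseudorandom labels

Definitions: labels of strings for seeds, the questions, the scores, the search.
-/

set_option autoImplicit false

namespace Pool.Agent.W901.RL

open Finset Pool.Agent.NPC Pool.Agent.H579R2.Spt Pool.Agent.H251R5.PQ Pool.Agent.W901.AT

/-- The `i`-th block of length `D` of the string `r`. -/
def blk (D i : ℕ) (r : List Bool) : List Bool := (r.drop (i * D)).take D

/-- One-hot encoding of the values at `0, …, p - 1` of the polynomial of the string `u`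
(a string of length `p * p`). -/
def lift (p : ℕ) (u : List Bool) : List Bool :=
  (List.range p).flatMap (fun i => (List.range p).map (fun c => decide (hv p i u = c)))

/-- The label of the string `u` for the seed `s` (a string of length `p * p`). -/
def lbl (p : ℕ) (s u : List Bool) : Bool := ip s (lift p u)

/-- The labels of the string `u` for the `m` seeds which are the blocks of the string `σ`. -/
def row (p m : ℕ) (σ u : List Bool) : List Bool :=
  (List.range m).map (fun i => lbl p (blk (p * p) i σ) u)

/-- Parameters of the search: `n` length of the strings looked for, `p` prime number for the labels,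
`m` number of questions, `R` number of runs of the predictor, `Lc` number of coins for one run, `N0`
length of the lists, `Z` number of rounds for each length, `Th` threshold for the scores. -/
structure Par where
  n : ℕ
  p : ℕ
  m : ℕ
  R : ℕ
  Lc : ℕ
  N0 : ℕ
  Z : ℕ
  Th : ℕ

/-- Number of random bits of one round. -/
def Par.bl (P : Par) : ℕ := P.m * (P.p * P.p) + P.R * P.Lc

/-- The score of the labels `w`: sum of the payoffs over all runs of the predictor `g` on the list
`qs` of questions. -/
def score (Ψ : List (Option Bool) → List Bool → ℕ) (g : List Bool → List (Option Bool))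
    (ℓ : Polynomial ℕ) (R Lc : ℕ) (qs : List (List Bool)) (coins w : List Bool) : ℕ :=
  ((List.range R).map (fun t =>
    Ψ (g (pairBits (bits qs) ((blk Lc t coins).take (ℓ.eval (bits qs).length)))) w)).sum

section

variable (Ψ : List (Option Bool) → List Bool → ℕ) (g : List Bool → List (Option Bool))
  (ℓ : Polynomial ℕ) (qf : List Bool × (ℕ × (ℕ × List Bool)) → List Bool) (P : Par) (x : List Bool)

/-- The questions for the input `x`, the length `j` and the seeds in `σ`. -/
def qlist (j : ℕ) (σ : List Bool) : List (List Bool) :=
  (List.range P.m).map (fun i => qf (x, (P.p, (j, blk (P.p * P.p) i σ))))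

/-- Is the score of the string `u` large? -/
def keepS (σ u : List Bool) : Bool :=
  decide (P.Th ≤ score Ψ g ℓ P.R P.Lc (qlist qf P x u.length σ) (σ.drop (P.m * (P.p * P.p)))
    (row P.p P.m σ u))

/-- One round. -/
def rnd (σ : List Bool) (W : List (List Bool)) : List (List Bool) :=
  if W.length ≤ P.N0 then W else W.filter (keepS Ψ g ℓ qf P x σ)

/-- Step number `t`: after every `Z` steps the strings are extended by one bit. -/
def stp (t : ℕ) (σ : List Bool) (W : List (List Bool)) : List (List Bool) :=
  rnd Ψ g ℓ qf P x σ (if t % P.Z = 0 then children (W.take P.N0) else W)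

/-- The first `T` steps. -/
def runS (T : ℕ) (ρ : List Bool) : List (List Bool) :=
  (List.range T).foldl (fun W t => stp Ψ g ℓ qf P x t (blk P.bl t ρ) W) [[]]

/-- All prefixes of the strings found at the end. -/
def cands (ρ : List Bool) : List (List Bool) :=
  (runS Ψ g ℓ qf P x (P.n * P.Z) ρ).flatMap (fun u => (List.range (P.n + 1)).map (fun k => u.take k))

end

/-- The seeds `σ` are good for the list `W`: for every vector `h` of predictions the mean payoff over
`W` is small. -/
def GoodSeeds (Ψ : List (Option Bool) → List Bool → ℕ) (P : Par) (W : List (List Bool))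
    (σ : List Bool) : Prop :=
  ∀ h : List (Option Bool),
    P.R * P.Z * (W.map (fun u => Ψ h (row P.p P.m σ u))).sum ≤ W.length * (P.Z - 1) * P.Th

/-- Most seeds are good for every list `W` of between `N0` and `2 * N0` different strings of the same
length `j ≤ n`. -/
def E1 (Ψ : List (Option Bool) → List Bool → ℕ) (P : Par) : Prop :=
  ∀ j ≤ P.n, ∀ W : List (List Bool), W.Nodup → (∀ u ∈ W, u.length = j) → P.N0 < W.length →
    W.length ≤ 2 * P.N0 →
    16 * (P.n * P.Z) * {σ : List Bool | σ.length = P.m * (P.p * P.p) ∧ ¬ GoodSeeds Ψ P W σ}.ncard ≤
      2 ^ (P.m * (P.p * P.p))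

/-- For all seeds the score of the right answers is large with high probability over the coins. -/
def E2 (A : Set (List Bool)) (Ψ : List (Option Bool) → List Bool → ℕ)
    (g : List Bool → List (Option Bool)) (ℓ : Polynomial ℕ)
    (qf : List Bool × (ℕ × (ℕ × List Bool)) → List Bool) (P : Par) (x : List Bool) : Prop :=
  ∀ j ≤ P.n, ∀ σ : List Bool, σ.length = P.m * (P.p * P.p) →
    16 * (P.n * P.Z) * {c : List Bool | c.length = P.R * P.Lc ∧
      ¬ P.Th ≤ score Ψ g ℓ P.R P.Lc (qlist qf P x j σ) c (answers A (qlist qf P x j σ))}.ncard ≤
      2 ^ (P.R * P.Lc)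

/-- The label question `q = (x, p, j, s)`: is there a certificate whose prefix of length `j` (after
padding) has the label `true` for the seed `s`, a string of length `p * p`? -/
def LabQ (V0 : List Bool → List Bool) (pp : Polynomial ℕ) (q : List Bool × (ℕ × (ℕ × List Bool))) :
    Prop :=
  ∃ w, ver V0 pp q.1 w = true ∧ q.2.2.2.length = q.2.1 * q.2.1 ∧
    lbl q.2.1 q.2.2.2 ((w ++ List.replicate (pp.eval q.1.length) false).take q.2.2.1) = true

/-- Number of right predictions. -/
def right (h : List (Option Bool)) (w : List Bool) : ℕ :=
  ((h.zip w).filter (fun t => decide (t.1 = some t.2))).length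

end Pool.Agent.W901.RL
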