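import Pool.Agent.W901.RL.Defs

/-!
# Notions for the laws of randomised predictions

Polynomial time is Mathlib's `Turing.TM2ComputableInPolyTime` (through `Pool.Agent.NPC.PolyTime`).
`made h` is the number of predictions in `h`, `excess h w` the number of right minus the number of
wrong predictions, `answers A qs` the list of the answers to the questions `q ∈ A?`, `q` in `qs`.
-/

set_option autoImplicit false

namespace Pool.Agent.W901.RL

open Finset Pool.Agent.NPC Pool.Agent.H579R2.Spt Pool.Agent.H251R5.PQ Pool.Agent.W901.AT

/-- The mean of `f r` over the strings `r` of `n` bits. -/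
noncomputable def mean (n : ℕ) (f : List Bool → ℝ) : ℝ := (∑ r ∈ BL n, f r) / 2 ^ n

/-- The squared deviation of the predictions `h` of the string `w`:
`(right - wrong) ^ 2 / (number of predictions)`. -/
noncomputable def dev (h : List (Option Bool)) (w : List Bool) : ℝ :=
  if h.length = w.length then (excess h w : ℝ) ^ 2 / made h else 0

/-- `A` is `(c, ε)`-predictable in mean square: a probabilistic polynomial-time algorithm, given a
list of `m ≥ 2` questions about membership in `A`, each of length at most `m ^ ε`, makes predictions
whose squared deviation has mean at least `1 + 1 / m ^ c`. -/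
def MeanPredictable (c : ℕ) (ε : ℝ) (A : Set (List Bool)) : Prop :=
  ∃ (g : List Bool → List (Option Bool)) (ℓ : Polynomial ℕ), PolyTime (fun z => bits (g z)) ∧
    ∀ qs : List (List Bool), 2 ≤ qs.length → (∀ y ∈ qs, (y.length : ℝ) ≤ (qs.length : ℝ) ^ ε) →
      1 + 1 / (qs.length : ℝ) ^ c ≤ mean (ℓ.eval (bits qs).length)
        (fun r => dev (g (pairBits (bits qs) r)) (answers A qs))

/-- Number of wrong predictions. -/
def wrong (h : List (Option Bool)) (w : List Bool) : ℕ :=
  ((h.zip w).filter (fun t => decide (t.1 = some (!t.2)))).length

/-- `A` is solvable: a probabilistic polynomial-time algorithm, given any nonempty list of questions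
about membership in `A`, answers all of them correctly with probability at least `1 - 1 / 2 ^ n`,
where `n` is the length of the code of the list. -/
def Solvable (A : Set (List Bool)) : Prop :=
  ∃ (g : List Bool → List (Option Bool)) (ℓ : Polynomial ℕ), PolyTime (fun z => bits (g z)) ∧
    ∀ qs : List (List Bool), qs ≠ [] →
      2 ^ (bits qs).length * {r : List Bool | r.length = ℓ.eval (bits qs).length ∧
        g (pairBits (bits qs) r) ≠ (answers A qs).map some}.ncard ≤ 2 ^ ℓ.eval (bits qs).length

/-- The predictions `h` for the questions in `qs` reach the advantage `f`: if the number of questions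
is `m` and the number of predictions is `s` then `s > 0` and `|right - wrong| ≥ f m * √ s`. -/
def Reaches (f : ℕ → ℝ) (A : Set (List Bool)) (qs : List (List Bool)) (h : List (Option Bool)) :
    Prop :=
  h.length = qs.length ∧ 0 < made h ∧
    f qs.length * Real.sqrt (made h) ≤ |(excess h (answers A qs) : ℝ)|

/-- `A` is `(f, ε)`-reachable: a probabilistic polynomial-time algorithm, given a nonempty list of `m`
questions about membership in `A`, each of length at most `m ^ ε`, reaches the advantage `f` with
probability at least `1 / q n`, where `q` is a polynomial and `n` is the length of the code of the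
list. -/
def Reachable (f : ℕ → ℝ) (ε : ℝ) (A : Set (List Bool)) : Prop :=
  ∃ (g : List Bool → List (Option Bool)) (ℓ q : Polynomial ℕ), PolyTime (fun z => bits (g z)) ∧
    ∀ qs : List (List Bool), qs ≠ [] → (∀ y ∈ qs, (y.length : ℝ) ≤ (qs.length : ℝ) ^ ε) →
      2 ^ ℓ.eval (bits qs).length ≤ q.eval (bits qs).length *
        {r : List Bool | r.length = ℓ.eval (bits qs).length ∧
          Reaches f A qs (g (pairBits (bits qs) r))}.ncard

/-- `A` is `(c, K)`-predictable in parity: a probabilistic polynomial-time algorithm, given a list of
`m ≥ 2` questions about membership in `A`, each of length at most `m ^ K`, makes predictions for some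
of them, at least one, such that the number of wrong predictions is even with probability at least
`1 / 2 + 1 / (2 * m ^ c)`; in other words it finds with this probability a nonempty set of questions
and the parity of the answers to them. -/
def ParityPredictable (c K : ℕ) (A : Set (List Bool)) : Prop :=
  ∃ (g : List Bool → List (Option Bool)) (ℓ : Polynomial ℕ), PolyTime (fun z => bits (g z)) ∧
    ∀ qs : List (List Bool), 2 ≤ qs.length → (∀ y ∈ qs, y.length ≤ qs.length ^ K) →
      1 / 2 + 1 / (2 * (qs.length : ℝ) ^ c) ≤ mean (ℓ.eval (bits qs).length)
        (fun r => if (g (pairBits (bits qs) r)).length = qs.length ∧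
          0 < made (g (pairBits (bits qs) r)) ∧
          Even (wrong (g (pairBits (bits qs) r)) (answers A qs)) then 1 else 0)

/-- A game against strings of bits: the move `h`, a string of bits, gives the payoff `pay h w` against
the string `w`; the price for strings of length `m` is `price m`. -/
structure Game where
  pay : List Bool → List Bool → ℕ
  price : ℕ → ℕ

/-- The game is fair: payoffs and prices are computable in polynomial time in unary notation, prices
are positive, only moves of polynomial length have positive payoffs, no move has a mean payoff
against random strings of length `m` larger than the price; and for given `w` a move whose payoff is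
at least twice the price can be found in polynomial time. -/
def Game.Fair (G : Game) : Prop :=
  (∃ P : List Bool → List Bool, PolyTime P ∧
    ∀ h w, P (pairBits h w) = List.replicate (G.pay h w) true) ∧
  (∃ P : List Bool → List Bool, PolyTime P ∧
    ∀ m, P (List.replicate m true) = List.replicate (G.price m) true) ∧
  (∀ m, 0 < G.price m) ∧
  (∃ r : Polynomial ℕ, ∀ h w, r.eval w.length < h.length → G.pay h w = 0) ∧
  (∀ m h, ∑ w ∈ BL m, G.pay h w ≤ 2 ^ m * G.price m) ∧
  ∃ best : List Bool → List Bool, PolyTime best ∧
    ∀ w, 2 ≤ w.length → 2 * G.price w.length ≤ G.pay (best w) w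

/-- A probabilistic polynomial-time algorithm wins the game `G` on `A`: for all lists of `m ≥ 2`
questions about membership in `A`, each of length at most `m ^ K`, its mean payoff against the
answers is at least `(1 + 1 / m ^ c)` times the price. -/
def Wins (G : Game) (c K : ℕ) (A : Set (List Bool)) : Prop :=
  ∃ (g : List Bool → List Bool) (ℓ : Polynomial ℕ), PolyTime g ∧
    ∀ qs : List (List Bool), 2 ≤ qs.length → (∀ y ∈ qs, y.length ≤ qs.length ^ K) →
      G.price qs.length * (1 + 1 / (qs.length : ℝ) ^ c) ≤ mean (ℓ.eval (bits qs).length)
        (fun r => G.pay (g (pairBits (bits qs) r)) (answers A qs))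

end Pool.Agent.W901.RL
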