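import Pool.Agent.W901.RL.Stm

/-!
# Correctness of the randomised pruned search
-/

set_option autoImplicit false

namespace Pool.Agent.W901.RL

open Finset Pool.Agent.NPC Pool.Agent.H579R2.Spt Pool.Agent.H251R5.PQ Pool.Agent.W901.AT

open Classical in
theorem ncard_eq (n : ℕ) (Q : List Bool → Prop) :
    {σ : List Bool | σ.length = n ∧ Q σ}.ncard = ((BL n).filter Q).card := by
  rw [← Set.ncard_coe_finset]
  congr 1
  ext σ
  simp

open Classical in
theorem card_split (a b : ℕ) (Q : List Bool → List Bool → Prop) :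
    ((BL (a + b)).filter (fun σ => Q (σ.take a) (σ.drop a))).card =
      ∑ s ∈ BL a, ((BL b).filter (fun c => Q s c)).card := by
  rw [← Finset.card_sigma]
  refine Finset.card_bij' (fun σ _ => (⟨σ.take a, σ.drop a⟩ : (_ : List Bool) × List Bool))
    (fun t _ => t.1 ++ t.2) ?_ ?_ ?_ ?_
  · intro σ hσ
    obtain ⟨h1, h2⟩ := Finset.mem_filter.1 hσ
    rw [mem_BL] at h1
    rw [Finset.mem_sigma, Finset.mem_filter, mem_BL, mem_BL]
    refine ⟨?_, ?_, h2⟩
    · simp only [List.length_take]; omega
    · simp only [List.length_drop]; omega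
  · rintro ⟨s, c⟩ ht
    rw [Finset.mem_sigma, Finset.mem_filter, mem_BL, mem_BL] at ht
    obtain ⟨h1, h2, h3⟩ := ht
    simp only at h1 h2 h3
    rw [Finset.mem_filter, mem_BL]
    refine ⟨by simp [h1, h2], ?_⟩
    simp only
    rw [← h1, List.take_left, List.drop_left]
    exact h3
  · intro σ _
    exact List.take_append_drop a σ
  · rintro ⟨s, c⟩ ht
    rw [Finset.mem_sigma, Finset.mem_filter, mem_BL, mem_BL] at ht
    obtain ⟨h1, _, _⟩ := ht
    simp only at h1
    simp only
    subst h1
    rw [List.take_left, List.drop_left]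

theorem card_BL_nat (n : ℕ) : (BL n).card = 2 ^ n := by
  have := card_BL n
  exact_mod_cast this

theorem split_le {K a b : ℕ} {Q : List Bool → List Bool → Prop}
    (h : ∀ s : List Bool, s.length = a → K * {c : List Bool | c.length = b ∧ Q s c}.ncard ≤ 2 ^ b) :
    K * {σ : List Bool | σ.length = a + b ∧ Q (σ.take a) (σ.drop a)}.ncard ≤ 2 ^ (a + b) := by
  classical
  rw [ncard_eq, card_split, Finset.mul_sum]
  calc ∑ s ∈ BL a, K * ((BL b).filter (fun c => Q s c)).card ≤ ∑ s ∈ BL a, 2 ^ b := by
        refine Finset.sum_le_sum fun s hs => ?_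
        rw [← ncard_eq]
        exact h s (mem_BL.1 hs)
    _ = 2 ^ (a + b) := by
        rw [Finset.sum_const, card_BL_nat, smul_eq_mul, pow_add]

theorem split_le_left {K a b : ℕ} {Q : List Bool → Prop}
    (h : K * {s : List Bool | s.length = a ∧ Q s}.ncard ≤ 2 ^ a) :
    K * {σ : List Bool | σ.length = a + b ∧ Q (σ.take a)}.ncard ≤ 2 ^ (a + b) := by
  classical
  rw [ncard_eq, card_split a b (fun s _ => Q s)]
  have h1 : ∑ s ∈ BL a, ((BL b).filter (fun _ => Q s)).card =
      ((BL a).filter Q).card * 2 ^ b := by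
    rw [Finset.card_filter, Finset.sum_mul]
    refine Finset.sum_congr rfl fun s _ => ?_
    by_cases hs : Q s
    · simp [hs, card_BL_nat]
    · simp [hs]
  rw [h1, ← mul_assoc, pow_add]
  refine Nat.mul_le_mul_right _ ?_
  rw [← ncard_eq]
  exact h

theorem blk_take {D m i : ℕ} (hi : i < m) (σ : List Bool) :
    blk D i (σ.take (m * D)) = blk D i σ := by
  unfold blk
  rw [List.drop_take, List.take_take]
  congr 1
  have : (i + 1) * D ≤ m * D := Nat.mul_le_mul_right _ hi
  have h2 : (i + 1) * D = i * D + D := by ring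
  omega

theorem blk_length {D m i : ℕ} (hi : i < m) {σ : List Bool} (hσ : m * D ≤ σ.length) :
    (blk D i σ).length = D := by
  unfold blk
  rw [List.length_take, List.length_drop]
  have : (i + 1) * D ≤ m * D := Nat.mul_le_mul_right _ hi
  have h2 : (i + 1) * D = i * D + D := by ring
  omega

theorem row_take (p m : ℕ) (σ u : List Bool) : row p m (σ.take (m * (p * p))) u = row p m σ u := by
  unfold row
  refine List.map_congr_left fun i hi => ?_
  rw [blk_take (List.mem_range.1 hi)]

section

variable {A : Set (List Bool)} {Ψ : List (Option Bool) → List Bool → ℕ}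
  {g : List Bool → List (Option Bool)} {ℓ : Polynomial ℕ}
  {qf : List Bool × (ℕ × (ℕ × List Bool)) → List Bool} {P : Par}
  {V0 : List Bool → List Bool} {pp : Polynomial ℕ} {x w : List Bool}

theorem qlist_take (j : ℕ) (σ : List Bool) :
    qlist qf P x j (σ.take (P.m * (P.p * P.p))) = qlist qf P x j σ := by
  unfold qlist
  refine List.map_congr_left fun i hi => ?_
  rw [blk_take (List.mem_range.1 hi)]

/-- The right answers are the labels of the prefix of the certificate. -/
theorem answers_qlist (hn : P.n = pp.eval x.length)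
    (hq : ∀ q : List Bool × (ℕ × (ℕ × List Bool)), qf q ∈ A ↔ LabQ V0 pp q)
    (hw : ver V0 pp x w = true) (hu : ∀ w', ver V0 pp x w' = true → w' = w) (j : ℕ)
    {σ : List Bool} (hσ : P.m * (P.p * P.p) ≤ σ.length) :
    answers A (qlist qf P x j σ) = row P.p P.m σ ((w ++ List.replicate P.n false).take j) := by
  classical
  unfold answers qlist row
  rw [List.map_map]
  refine List.map_congr_left fun i hi => ?_
  have h1 : (qf (x, (P.p, (j, blk (P.p * P.p) i σ))) ∈ A) ↔
      lbl P.p (blk (P.p * P.p) i σ) ((w ++ List.replicate P.n false).take j) = true := by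
    rw [hq, hn]
    unfold LabQ
    constructor
    · rintro ⟨w', hw', _, h⟩
      rw [hu w' hw'] at h
      exact h
    · intro h
      exact ⟨w, hw, blk_length (List.mem_range.1 hi) hσ, h⟩
  change decide (qf (x, (P.p, (j, blk (P.p * P.p) i σ))) ∈ A) = _
  by_cases h2 : lbl P.p (blk (P.p * P.p) i σ) ((w ++ List.replicate P.n false).take j) = true
  · rw [h2]; exact decide_eq_true (h1.2 h2)
  · rw [Bool.not_eq_true] at h2
    rw [h2]
    refine decide_eq_false fun h3 => ?_
    rw [h1.1 h3] at h2
    exact absurd h2 (by simp)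

theorem sum_filter_le {α : Type} (W : List α) (q : α → Bool) (f : α → ℕ) :
    ((W.filter q).map f).sum ≤ (W.map f).sum := by
  induction W with
  | nil => simp
  | cons a W ih =>
    rw [List.filter_cons]
    split_ifs
    · simp only [List.map_cons, List.sum_cons]; omega
    · simp only [List.map_cons, List.sum_cons]; omega

theorem length_mul_le_sum {α : Type} (W : List α) (f : α → ℕ) (c : ℕ) (h : ∀ u ∈ W, c ≤ f u) :
    W.length * c ≤ (W.map f).sum := by
  induction W with
  | nil => simp
  | cons a W ih =>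
    simp only [List.map_cons, List.sum_cons, List.length_cons]
    have h1 := ih fun u hu => h u (List.mem_cons_of_mem _ hu)
    have h2 := h a List.mem_cons_self
    have h3 : (W.length + 1) * c = W.length * c + c := by ring
    omega

theorem sum_swap_le {α : Type} (W : List α) (R : ℕ) (F : ℕ → α → ℕ) (C D : ℕ)
    (h : ∀ t, C * (W.map (F t)).sum ≤ D) :
    C * (W.map (fun u => ((List.range R).map (fun t => F t u)).sum)).sum ≤ R * D := by
  induction R with
  | zero => simp
  | succ R ih =>
    have h1 : (W.map (fun u => ((List.range (R + 1)).map (fun t => F t u)).sum)).sum =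
        (W.map (fun u => ((List.range R).map (fun t => F t u)).sum)).sum + (W.map (F R)).sum := by
      rw [← List.sum_map_add]
      congr 1
      refine List.map_congr_left fun u _ => ?_
      rw [List.range_succ, List.map_append, List.sum_append]
      simp
    rw [h1, mul_add]
    have h2 := h R
    have h3 : (R + 1) * D = R * D + D := by ring
    omega

/-- A round with good seeds shortens the list. -/
theorem rnd_length {M : ℕ} (hM : P.N0 = P.Z * M) (hZ : 0 < P.Z) (hR : 0 < P.R) (hTh : 0 < P.Th)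
    {W : List (List Bool)} {j : ℕ} (hj : ∀ u ∈ W, u.length = j) (hW : P.N0 < W.length)
    {σ : List Bool} (hσ : GoodSeeds Ψ P W (σ.take (P.m * (P.p * P.p)))) :
    (W.filter (keepS Ψ g ℓ qf P x σ)).length + M ≤ W.length := by
  set W2 := W.filter (keepS Ψ g ℓ qf P x σ) with hW2
  set F : ℕ → List Bool → ℕ := fun t u =>
    Ψ (g (pairBits (bits (qlist qf P x j σ))
      ((blk P.Lc t (σ.drop (P.m * (P.p * P.p)))).take (ℓ.eval (bits (qlist qf P x j σ)).length))))
      (row P.p P.m σ u) with hF
  have hsc : ∀ u ∈ W, score Ψ g ℓ P.R P.Lc (qlist qf P x u.length σ)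
      (σ.drop (P.m * (P.p * P.p))) (row P.p P.m σ u) =
      ((List.range P.R).map (fun t => F t u)).sum := by
    intro u hu
    rw [hj u hu]
    rfl
  have h1 : W2.length * P.Th ≤ (W2.map (fun u => ((List.range P.R).map (fun t => F t u)).sum)).sum := by
    refine length_mul_le_sum _ _ _ fun u hu => ?_
    obtain ⟨hu1, hu2⟩ := List.mem_filter.1 hu
    rw [← hsc u hu1]
    unfold keepS at hu2
    exact of_decide_eq_true hu2
  have h2 := h1.trans (sum_filter_le W (keepS Ψ g ℓ qf P x σ)
    (fun u => ((List.range P.R).map (fun t => F t u)).sum))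
  have h3 := sum_swap_le W P.R F (P.R * P.Z) (W.length * (P.Z - 1) * P.Th) (by
    intro t
    have := hσ (g (pairBits (bits (qlist qf P x j σ))
      ((blk P.Lc t (σ.drop (P.m * (P.p * P.p)))).take (ℓ.eval (bits (qlist qf P x j σ)).length))))
    simp only [row_take] at this
    exact this)
  have h4 : P.R * P.Z * (W2.length * P.Th) ≤ P.R * (W.length * (P.Z - 1) * P.Th) :=
    (Nat.mul_le_mul_left _ h2).trans h3
  have h5 : (P.R * P.Th) * (P.Z * W2.length) ≤ (P.R * P.Th) * (W.length * (P.Z - 1)) := by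
    calc (P.R * P.Th) * (P.Z * W2.length) = P.R * P.Z * (W2.length * P.Th) := by ring
      _ ≤ P.R * (W.length * (P.Z - 1) * P.Th) := h4
      _ = (P.R * P.Th) * (W.length * (P.Z - 1)) := by ring
  have h6 : P.Z * W2.length ≤ W.length * (P.Z - 1) :=
    Nat.le_of_mul_le_mul_left h5 (Nat.mul_pos hR hTh)
  obtain ⟨z, hz⟩ : ∃ z, P.Z = z + 1 := ⟨P.Z - 1, by omega⟩
  rw [hz] at h6 hM
  simp only [Nat.add_sub_cancel] at h6
  have h7 : (z + 1) * (W2.length + M) ≤ (z + 1) * W.length := by
    have e1 : (z + 1) * (W2.length + M) = (z + 1) * W2.length + (z + 1) * M := by ring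
    have e2 : (z + 1) * W.length = W.length * z + W.length := by ring
    rw [e1, e2, ← hM]
    omega
  exact Nat.le_of_mul_le_mul_left h7 (by omega)

/-- The invariant after `t` steps. -/
def Inv (P : Par) (w : List Bool) (M t : ℕ) (W : List (List Bool)) : Prop :=
  W.Nodup ∧ (∀ u ∈ W, u.length = (t + P.Z - 1) / P.Z) ∧
    (w ++ List.replicate P.n false).take ((t + P.Z - 1) / P.Z) ∈ W ∧
    W.length ≤ if t % P.Z = 0 then P.N0 else max P.N0 (2 * P.N0 - (t % P.Z) * M)

/-- The list before the round in step number `t`. -/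
def pre (P : Par) (t : ℕ) (W : List (List Bool)) : List (List Bool) :=
  if t % P.Z = 0 then children (W.take P.N0) else W

theorem children_length (W : List (List Bool)) : (children W).length = 2 * W.length := by
  unfold children
  induction W with
  | nil => simp
  | cons u W ih => rw [List.flatMap_cons, List.length_append, ih]; simp; ring

theorem div_step {Z t : ℕ} (hZ : 0 < Z) :
    (t + 1 + Z - 1) / Z = if t % Z = 0 then (t + Z - 1) / Z + 1 else (t + Z - 1) / Z := by
  obtain ⟨a, b, hb, ht⟩ : ∃ a b, b < Z ∧ t = Z * a + b :=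
    ⟨t / Z, t % Z, Nat.mod_lt _ hZ, (Nat.div_add_mod t Z).symm⟩
  have h1 : t % Z = b := by rw [ht, Nat.mul_add_mod]; exact Nat.mod_eq_of_lt hb
  rw [h1]
  have e1 : t + 1 + Z - 1 = Z * (a + 1) + b := by
    have : Z * (a + 1) = Z * a + Z := by ring
    omega
  rw [e1, Nat.mul_add_div hZ, Nat.div_eq_of_lt hb]
  by_cases h0 : b = 0
  · rw [if_pos h0]
    have e2 : t + Z - 1 = Z * a + (Z - 1) := by omega
    rw [e2, Nat.mul_add_div hZ, Nat.div_eq_of_lt (by omega)]
  · rw [if_neg h0]
    have e2 : t + Z - 1 = Z * (a + 1) + (b - 1) := by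
      have : Z * (a + 1) = Z * a + Z := by ring
      omega
    rw [e2, Nat.mul_add_div hZ, Nat.div_eq_of_lt (by omega)]

theorem level_le {Z n t : ℕ} (hZ : 0 < Z) (ht : t ≤ n * Z) : (t + Z - 1) / Z ≤ n := by
  rw [← Nat.lt_succ_iff, Nat.div_lt_iff_lt_mul hZ, Nat.succ_mul]
  omega

theorem pre_inv {M t : ℕ} (hZ : 0 < P.Z) (hwn : w.length ≤ P.n) (ht : t < P.n * P.Z)
    {W : List (List Bool)} (h : Inv P w M t W) :
    (pre P t W).Nodup ∧ (∀ u ∈ pre P t W, u.length = (t + 1 + P.Z - 1) / P.Z) ∧
      (w ++ List.replicate P.n false).take ((t + 1 + P.Z - 1) / P.Z) ∈ pre P t W ∧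
      (pre P t W).length ≤ if t % P.Z = 0 then 2 * P.N0 else max P.N0 (2 * P.N0 - (t % P.Z) * M) := by
  obtain ⟨h1, h2, h3, h4⟩ := h
  have hlev : (t + 1 + P.Z - 1) / P.Z ≤ P.n := level_le hZ ht
  rw [div_step hZ] at hlev ⊢
  unfold pre
  by_cases h0 : t % P.Z = 0
  · simp only [h0, if_true] at h4 hlev ⊢
    rw [List.take_of_length_le h4]
    refine ⟨children_nodup h1, ?_, ?_, ?_⟩
    · intro u hu
      obtain ⟨v, hv, b, rfl⟩ := mem_children.1 hu
      rw [List.length_append, h2 v hv]
      rfl
    · set j := (t + P.Z - 1) / P.Z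
      have hj : j < (w ++ List.replicate P.n false).length := by
        rw [List.length_append, List.length_replicate]; omega
      exact mem_children.2 ⟨_, h3, (w ++ List.replicate P.n false)[j],
        (List.take_append_getElem hj).symm⟩
    · rw [children_length]
      omega
  · simp only [h0, if_false] at h4 hlev ⊢
    exact ⟨h1, h2, h3, h4⟩

theorem stp_eq (t : ℕ) (σ : List Bool) (W : List (List Bool)) :
    stp Ψ g ℓ qf P x t σ W = if (pre P t W).length ≤ P.N0 then pre P t W else
      (pre P t W).filter (keepS Ψ g ℓ qf P x σ) := rfl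

/-- One step with good random bits keeps the invariant. -/
theorem stp_inv {M t : ℕ} (hM : P.N0 = P.Z * M) (hZ : 0 < P.Z) (hR : 0 < P.R) (hTh : 0 < P.Th)
    (hn : P.n = pp.eval x.length)
    (hq : ∀ q : List Bool × (ℕ × (ℕ × List Bool)), qf q ∈ A ↔ LabQ V0 pp q)
    (hw : ver V0 pp x w = true) (hu : ∀ w', ver V0 pp x w' = true → w' = w)
    (hwn : w.length ≤ P.n) (ht : t < P.n * P.Z)
    {W : List (List Bool)} (h : Inv P w M t W) {σ : List Bool} (hσl : σ.length = P.bl)
    (hσ1 : P.N0 < (pre P t W).length → GoodSeeds Ψ P (pre P t W) (σ.take (P.m * (P.p * P.p))))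
    (hσ2 : P.Th ≤ score Ψ g ℓ P.R P.Lc
      (qlist qf P x ((t + 1 + P.Z - 1) / P.Z) (σ.take (P.m * (P.p * P.p))))
      (σ.drop (P.m * (P.p * P.p))) (answers A
        (qlist qf P x ((t + 1 + P.Z - 1) / P.Z) (σ.take (P.m * (P.p * P.p)))))) :
    Inv P w M (t + 1) (stp Ψ g ℓ qf P x t σ W) := by
  obtain ⟨h1, h2, h3, h4⟩ := pre_inv hZ hwn ht h
  rw [stp_eq]
  have hb : σ.length = P.m * (P.p * P.p) + P.R * P.Lc := hσl
  have hmod : (t + 1) % P.Z = if t % P.Z + 1 = P.Z then 0 else t % P.Z + 1 := by
    have hlt := Nat.mod_lt t hZ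
    rw [Nat.add_mod]
    by_cases hZ1 : P.Z = 1
    · rw [hZ1]; simp [Nat.mod_one]
    · rw [Nat.mod_eq_of_lt (show 1 < P.Z by omega)]
      split_ifs with hc
      · rw [hc]; exact Nat.mod_self _
      · exact Nat.mod_eq_of_lt (by omega)
  have hlt := Nat.mod_lt t hZ
  split_ifs with hlen
  · refine ⟨h1, h2, h3, ?_⟩
    by_cases hc : (t + 1) % P.Z = 0
    · rw [if_pos hc]; exact hlen
    · rw [if_neg hc]; exact hlen.trans (le_max_left _ _)
  · rw [not_le] at hlen
    refine ⟨h1.filter _, fun u hu => h2 u (List.mem_filter.1 hu).1, ?_, ?_⟩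
    · refine List.mem_filter.2 ⟨h3, ?_⟩
      unfold keepS
      rw [h2 _ h3]
      refine decide_eq_true ?_
      rw [answers_qlist hn hq hw hu _ (by rw [List.length_take]; omega), row_take, qlist_take] at hσ2
      exact hσ2
    · have h5 := rnd_length (ℓ := ℓ) (g := g) (qf := qf) (x := x) hM hZ hR hTh h2 hlen (hσ1 hlen)
      set W2 := (pre P t W).filter (keepS Ψ g ℓ qf P x σ)
      by_cases h0 : t % P.Z = 0
      · rw [if_pos h0] at h4
        have hMle : M ≤ P.N0 := by
          rw [hM]; exact Nat.le_mul_of_pos_left _ hZ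
        by_cases hZ1 : P.Z = 1
        · rw [if_pos (by rw [hZ1]; exact Nat.mod_one _)]
          have : P.N0 = M := by rw [hM, hZ1]; ring
          omega
        · have hm1 : (t + 1) % P.Z = 1 := by rw [hmod, if_neg (by omega)]; omega
          rw [hm1, if_neg (by omega)]
          refine le_trans ?_ (le_max_right _ _)
          omega
      · rw [if_neg h0] at h4
        have h6 : (pre P t W).length ≤ 2 * P.N0 - (t % P.Z) * M := by
          rcases le_max_iff.1 h4 with h | h
          · omega
          · exact h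
        by_cases hc : t % P.Z + 1 = P.Z
        · have hm1 : (t + 1) % P.Z = 0 := by rw [hmod, if_pos hc]
          rw [if_pos hm1]
          have e1 : P.N0 = (t % P.Z) * M + M := by
            rw [hM]
            nth_rewrite 1 [← hc]
            ring
          omega
        · have hm1 : (t + 1) % P.Z = t % P.Z + 1 := by rw [hmod, if_neg hc]
          rw [hm1, if_neg (by omega)]
          refine le_trans ?_ (le_max_right _ _)
          have e1 : (t % P.Z + 1) * M = (t % P.Z) * M + M := by ring
          omega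

end

theorem search_of_ind (hind : S_IND) : S_SEARCH := by
  classical
  intro A Ψ g ℓ qf P V0 pp x w hn hM' hZ hN0 hR hTh hq hw hu hE1 hE2
  obtain ⟨M, hM⟩ := hM'
  have hwn : w.length ≤ P.n := by rw [hn]; exact (ver_iff.1 hw).1
  have key := hind (List (List Bool)) (fun t σ W => stp Ψ g ℓ qf P x t σ W) [[]] (Inv P w M) P.bl
    (P.n * P.Z) (8 * (P.n * P.Z)) (by
      unfold Inv
      have e : (0 + P.Z - 1) / P.Z = 0 := Nat.div_eq_of_lt (by omega)
      rw [e]
      simp
      omega) (by
      intro t ht W hWi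
      obtain ⟨h1, h2, h3, h4⟩ := pre_inv hZ hwn ht hWi
      set j := (t + 1 + P.Z - 1) / P.Z with hj
      have hjn : j ≤ P.n := level_le hZ ht
      have hlen2 : (pre P t W).length ≤ 2 * P.N0 := by
        refine h4.trans ?_
        split_ifs
        · exact le_rfl
        · refine max_le (by omega) (by omega)
      set a := P.m * (P.p * P.p) with ha
      set b := P.R * P.Lc with hb
      have hbl : P.bl = a + b := rfl
      have hsub : {σ : List Bool | σ.length = P.bl ∧ ¬ Inv P w M (t + 1) (stp Ψ g ℓ qf P x t σ W)} ⊆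
          {σ : List Bool | σ.length = a + b ∧ (P.N0 < (pre P t W).length ∧
            ¬ GoodSeeds Ψ P (pre P t W) (σ.take a))} ∪
          {σ : List Bool | σ.length = a + b ∧ ¬ P.Th ≤ score Ψ g ℓ P.R P.Lc
            (qlist qf P x j (σ.take a)) (σ.drop a) (answers A (qlist qf P x j (σ.take a)))} := by
        rintro σ ⟨hσ1, hσ2⟩
        by_contra hcon
        rw [Set.mem_union, not_or] at hcon
        obtain ⟨hc1, hc2⟩ := hcon
        have hσ1' : σ.length = a + b := hσ1
        apply hσ2
        refine stp_inv hM hZ hR hTh hn hq hw hu hwn ht hWi hσ1 ?_ ?_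
        · intro hlt
          by_contra hgs
          exact hc1 ⟨hσ1', hlt, hgs⟩
        · by_contra hts
          exact hc2 ⟨hσ1', hts⟩
      have hfin : ∀ Q : List Bool → Prop, {σ : List Bool | σ.length = a + b ∧ Q σ}.Finite := by
        intro Q
        refine (BL (a + b)).finite_toSet.subset ?_
        rintro σ ⟨h, _⟩
        simpa using h
      have c1 : 16 * (P.n * P.Z) * {σ : List Bool | σ.length = a + b ∧
          (P.N0 < (pre P t W).length ∧ ¬ GoodSeeds Ψ P (pre P t W) (σ.take a))}.ncard ≤
          2 ^ (a + b) := by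
        by_cases hlt : P.N0 < (pre P t W).length
        · have h5 := hE1 j hjn (pre P t W) h1 h2 hlt hlen2
          have h6 := split_le_left (b := b) h5
          have e0 : {σ : List Bool | σ.length = a + b ∧ (P.N0 < (pre P t W).length ∧
              ¬ GoodSeeds Ψ P (pre P t W) (σ.take a))} =
              {σ : List Bool | σ.length = a + b ∧ ¬ GoodSeeds Ψ P (pre P t W) (σ.take a)} := by
            ext σ
            simp only [Set.mem_ofPred_eq, hlt, true_and]
          rw [e0]
          exact h6
        · have : {σ : List Bool | σ.length = a + b ∧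
              (P.N0 < (pre P t W).length ∧ ¬ GoodSeeds Ψ P (pre P t W) (σ.take a))} = ∅ := by
            ext σ
            simp [hlt]
          rw [this]
          simp
      have c2 : 16 * (P.n * P.Z) * {σ : List Bool | σ.length = a + b ∧ ¬ P.Th ≤ score Ψ g ℓ P.R P.Lc
            (qlist qf P x j (σ.take a)) (σ.drop a) (answers A (qlist qf P x j (σ.take a)))}.ncard ≤
          2 ^ (a + b) :=
        split_le (Q := fun s c => ¬ P.Th ≤ score Ψ g ℓ P.R P.Lc
            (qlist qf P x j s) c (answers A (qlist qf P x j s))) fun s hs => hE2 j hjn s hs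
      have c3 := Set.ncard_le_ncard hsub ((hfin _).union (hfin _))
      have c4 := Set.ncard_union_le {σ : List Bool | σ.length = a + b ∧
          (P.N0 < (pre P t W).length ∧ ¬ GoodSeeds Ψ P (pre P t W) (σ.take a))}
          {σ : List Bool | σ.length = a + b ∧ ¬ P.Th ≤ score Ψ g ℓ P.R P.Lc
            (qlist qf P x j (σ.take a)) (σ.drop a) (answers A (qlist qf P x j (σ.take a)))}
      have c5 := Nat.mul_le_mul_left (16 * (P.n * P.Z)) (c3.trans c4)
      rw [mul_add] at c5
      have c6 : 16 * (P.n * P.Z) * {σ : List Bool | σ.length = P.bl ∧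
          ¬ Inv P w M (t + 1) (stp Ψ g ℓ qf P x t σ W)}.ncard ≤ 2 * 2 ^ P.bl := by
        rw [hbl] at c5 ⊢
        omega
      have e : 16 * (P.n * P.Z) * {σ : List Bool | σ.length = P.bl ∧
          ¬ Inv P w M (t + 1) (stp Ψ g ℓ qf P x t σ W)}.ncard =
          2 * (8 * (P.n * P.Z) * {σ : List Bool | σ.length = P.bl ∧
          ¬ Inv P w M (t + 1) (stp Ψ g ℓ qf P x t σ W)}.ncard) := by ring
      rw [e] at c6
      exact Nat.le_of_mul_le_mul_left c6 (by norm_num))
  have hsub : {ρ : List Bool | ρ.length = P.n * P.Z * P.bl ∧ w ∉ cands Ψ g ℓ qf P x ρ} ⊆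
      {ρ : List Bool | ρ.length = P.n * P.Z * P.bl ∧ ¬ Inv P w M (P.n * P.Z)
        ((List.range (P.n * P.Z)).foldl
          (fun W t => stp Ψ g ℓ qf P x t (blk P.bl t ρ) W) [[]])} := by
    rintro ρ ⟨h1, h2⟩
    refine ⟨h1, fun hI => h2 ?_⟩
    obtain ⟨_, _, h3, _⟩ := hI
    have e : (P.n * P.Z + P.Z - 1) / P.Z = P.n := by
      have e1 : P.n * P.Z + P.Z - 1 = P.Z * P.n + (P.Z - 1) := by
        rw [mul_comm P.n]; omega
      rw [e1, Nat.mul_add_div hZ, Nat.div_eq_of_lt (by omega)]
      rfl
    rw [e] at h3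
    unfold cands
    refine List.mem_flatMap.2 ⟨_, h3, List.mem_map.2 ⟨w.length, List.mem_range.2 (by omega), ?_⟩⟩
    rw [List.take_take, min_eq_left hwn, List.take_left]
  have hfin : {ρ : List Bool | ρ.length = P.n * P.Z * P.bl ∧ ¬ Inv P w M (P.n * P.Z)
        ((List.range (P.n * P.Z)).foldl
          (fun W t => stp Ψ g ℓ qf P x t (blk P.bl t ρ) W) [[]])}.Finite := by
    refine (BL (P.n * P.Z * P.bl)).finite_toSet.subset ?_
    rintro σ ⟨h, _⟩
    simpa using h
  have h5 := Set.ncard_le_ncard hsub hfin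
  rcases Nat.eq_zero_or_pos (P.n * P.Z) with h0 | h0
  · -- trivial case
    have hn0 : P.n = 0 := by
      rcases Nat.mul_eq_zero.1 h0 with h | h
      · exact h
      · omega
    have : {ρ : List Bool | ρ.length = P.n * P.Z * P.bl ∧ w ∉ cands Ψ g ℓ qf P x ρ} = ∅ := by
      ext ρ
      simp only [Set.mem_ofPred_eq, Set.mem_empty_iff_false, iff_false, not_and, not_not]
      intro _
      unfold cands runS
      rw [h0]
      have hw0 : w = [] := List.length_eq_zero_iff.1 (by omega)
      rw [hw0, hn0]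
      simp
    rw [this]
    simp
  · have h6 : (P.n * P.Z) * (8 * {ρ : List Bool | ρ.length = P.n * P.Z * P.bl ∧
        w ∉ cands Ψ g ℓ qf P x ρ}.ncard) ≤ (P.n * P.Z) * 2 ^ (P.n * P.Z * P.bl) := by
      calc (P.n * P.Z) * (8 * {ρ : List Bool | ρ.length = P.n * P.Z * P.bl ∧
          w ∉ cands Ψ g ℓ qf P x ρ}.ncard) = 8 * (P.n * P.Z) * {ρ : List Bool |
          ρ.length = P.n * P.Z * P.bl ∧ w ∉ cands Ψ g ℓ qf P x ρ}.ncard := by ring
        _ ≤ _ := (Nat.mul_le_mul_left _ h5).trans key
    exact Nat.le_of_mul_le_mul_left h6 h0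

end Pool.Agent.W901.RL
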