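import Pool.Agent.W901.RL.DefsL
import Pool.Agent.W901.RL.Cnt
import Pool.Agent.W901.RL.Search
import Pool.Agent.W920.NL.LawR4
import Pool.Agent.W762.RL.Cheb
import Pool.Agent.W376.RL.ANTI
import Pool.Agent.W376.RL.E1G

/-!
# The easy directions: solvable sets, coin tossing
-/

set_option autoImplicit false

namespace Pool.Agent.W901.RL

open Finset Pool.Agent.NPC Pool.Agent.H579R2.Spt Pool.Agent.H251R5.PQ Pool.Agent.W901.AT
open Pool.Agent.W920.NL

/-- If `A` is in `RP` then it is solvable. -/
theorem solvable_of_inRP {A : Set (List Bool)} (hA : Pool.Agent.W920.NL.InRP A) :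
    Solvable A := by
  classical
  obtain ⟨V, ρ, hV, hA1, hA2⟩ := hA
  have hVp : NPC.Poly V := PIso.poly_iff.2 hV
  have eρ : ∀ n : ℕ, (Polynomial.C 2 * Polynomial.X * ρ).eval n = 2 * n * ρ.eval n :=
    fun n => by simp
  refine ⟨rpg V ρ, Polynomial.C 2 * Polynomial.X * ρ, polyTime_bits (rpg_poly hVp ρ),
    fun qs hqs => ?_⟩
  rw [eρ]
  set n : ℕ := (bits qs).length with hn
  set B : ℕ := ρ.eval n with hB
  have hlen : ∀ q ∈ qs, q.length ≤ n := by
    intro q hq
    have h1 := sz_le_of_mem hq
    have h2 := length_lt_sz q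
    rw [hn, bits_length]
    omega
  have hnum : qs.length ≤ n := by
    rw [hn, bits_length]
    exact (length_lt_sz qs).le
  have hlst : ∀ r : List Bool, lst (pairBits (bits qs) r) = qs := by
    intro r
    unfold lst
    simp only [unpair_pairBits, unbits_bits, Option.getD_some]
  have hval : ∀ r : List Bool, rpg V ρ (pairBits (bits qs) r) =
      qs.map fun q => some (rpa V ρ n r q) := by
    intro r
    unfold rpg ky
    rw [hlst, unpair_pairBits]
  -- the bad strings for one question
  set Y : List Bool → Set (List Bool) := fun q => {r : List Bool | r.length = ρ.eval q.length ∧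
    ¬ V (pairBits q r) = [true]} with hY
  have hYc : ∀ q ∈ A, 2 * (Y q).ncard ≤ 2 ^ ρ.eval q.length := by
    intro q hq
    have h1 := hA1 q hq
    have h2 : {r : List Bool | r.length = ρ.eval q.length ∧ V (pairBits q r) = [true]}.ncard +
        (Y q).ncard = 2 ^ ρ.eval q.length := by
      rw [← str_ncard (ρ.eval q.length), ← Set.ncard_union_eq _
        ((str_finite _).subset fun r hr => hr.1) ((str_finite _).subset fun r hr => hr.1)]
      · congr 1
        ext r
        simp only [hY, Str, Set.mem_union, Set.mem_ofPred_eq]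
        tauto
      · rw [Set.disjoint_left]
        rintro r ⟨_, hr⟩ ⟨_, hr'⟩
        exact hr' hr
    omega
  have h1 : ∀ q ∈ qs, 2 ^ (2 * n) * {r : List Bool | r.length = 2 * n * B ∧
      (q ∈ A ∧ ∀ i < 2 * n, (r.drop (i * B)).take (ρ.eval q.length) ∈ Y q)}.ncard ≤
        2 ^ (2 * n * B) := by
    intro q hq
    by_cases hqA : q ∈ A
    · have h2 := blocks_le (X := Y q) (n := ρ.eval q.length) (B := B) (fun r hr => hr.1)
        (eval_mono ρ (hlen q hq)) (hYc q hqA) (2 * n) (2 * n) le_rfl
      refine le_trans (Nat.mul_le_mul_left _ (Set.ncard_le_ncard ?_ ?_)) h2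
      · rintro r ⟨hr1, _, hr2⟩
        exact ⟨hr1, hr2⟩
      · exact (str_finite _).subset fun r hr => hr.1
    · have h2 : {r : List Bool | r.length = 2 * n * B ∧
          (q ∈ A ∧ ∀ i < 2 * n, (r.drop (i * B)).take (ρ.eval q.length) ∈ Y q)} = ∅ := by
        ext r
        simp [hqA]
      rw [h2]
      simp
  have h2 := ncard_exists_list (P := fun q r => q ∈ A ∧ ∀ i < 2 * n,
    (r.drop (i * B)).take (ρ.eval q.length) ∈ Y q) qs h1
  have h3 : 2 ^ n * {r : List Bool | r.length = 2 * n * B ∧ ∃ q ∈ qs, q ∈ A ∧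
      ∀ i < 2 * n, (r.drop (i * B)).take (ρ.eval q.length) ∈ Y q}.ncard ≤ 2 ^ (2 * n * B) := by
    have h4 : qs.length ≤ 2 ^ n := hnum.trans Nat.lt_two_pow_self.le
    have h5 : 2 ^ n * (2 ^ n * {r : List Bool | r.length = 2 * n * B ∧
        ∃ q ∈ qs, q ∈ A ∧ ∀ i < 2 * n,
          (r.drop (i * B)).take (ρ.eval q.length) ∈ Y q}.ncard) ≤ 2 ^ n * 2 ^ (2 * n * B) := by
      calc _ = 2 ^ (2 * n) * {r : List Bool | r.length = 2 * n * B ∧
        ∃ q ∈ qs, q ∈ A ∧ ∀ i < 2 * n,
          (r.drop (i * B)).take (ρ.eval q.length) ∈ Y q}.ncard := by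
            rw [two_mul n, pow_add]; ring
        _ ≤ qs.length * 2 ^ (2 * n * B) := h2
        _ ≤ _ := Nat.mul_le_mul_right _ h4
    exact Nat.le_of_mul_le_mul_left h5 (by positivity)
  refine le_trans (Nat.mul_le_mul_left _ (Set.ncard_le_ncard ?_ ?_)) h3
  · rintro r ⟨hr, hnb⟩
    refine ⟨hr, ?_⟩
    by_contra hcon
    push Not at hcon
    refine hnb ?_
    rw [hval]
    have h4 : (qs.map fun q => some (rpa V ρ n r q)) = (answers A qs).map some := by
      unfold answers
      rw [List.map_map]
      refine List.map_congr_left fun q hq => ?_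
      simp only [Function.comp_apply, Option.some.injEq]
      by_cases hqA : q ∈ A
      · rw [decide_eq_true hqA]
        obtain ⟨i, hi1, hi2⟩ := hcon q hq hqA
        unfold rpa
        rw [List.any_eq_true]
        refine ⟨i, List.mem_range.2 hi1, ?_⟩
        rw [decide_eq_true_eq]
        by_contra hv
        refine hi2 ⟨?_, hv⟩
        have h6 : (i + 1) * B ≤ 2 * n * B := Nat.mul_le_mul_right _ hi1
        have h7 : (i + 1) * B = i * B + B := by ring
        have h8 : ρ.eval q.length ≤ B := eval_mono ρ (hlen q hq)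
        rw [List.length_take, List.length_drop, hr]
        omega
      · rw [decide_eq_false hqA]
        unfold rpa
        rw [List.any_eq_false]
        intro i hi
        rw [decide_eq_true_eq]
        refine hA2 q hqA _ ?_
        have hi1 := List.mem_range.1 hi
        have h6 : (i + 1) * B ≤ 2 * n * B := Nat.mul_le_mul_right _ hi1
        have h7 : (i + 1) * B = i * B + B := by ring
        have h8 : ρ.eval q.length ≤ B := eval_mono ρ (hlen q hq)
        rw [List.length_take, List.length_drop, hr, ← hB]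
        omega
    exact h4
  · exact (str_finite (2 * n * B)).subset fun r hr => hr.1

theorem mean_ge {L : ℕ} {F : List Bool → ℝ} {Q : List Bool → Prop} {v : ℝ} (hv : 0 ≤ v)
    (hF : ∀ r, 0 ≤ F r) (hQ : ∀ r, ¬ Q r → v ≤ F r)
    (hb : 8 * {r : List Bool | r.length = L ∧ Q r}.ncard ≤ 2 ^ L) : 7 / 8 * v ≤ mean L F := by
  classical
  unfold mean
  rw [le_div_iff₀ (by positivity)]
  rw [ncard_eq] at hb
  have h1 : ((BL L).filter Q).card + ((BL L).filter (fun r => ¬ Q r)).card = 2 ^ L := by
    rw [Finset.card_filter_add_card_filter_not, card_BL_nat]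
  have h2 : (((BL L).filter (fun r => ¬ Q r)).card : ℝ) * v ≤ ∑ r ∈ BL L, F r := by
    calc (((BL L).filter (fun r => ¬ Q r)).card : ℝ) * v =
          ∑ r ∈ (BL L).filter (fun r => ¬ Q r), v := by rw [Finset.sum_const, nsmul_eq_mul]
      _ ≤ ∑ r ∈ (BL L).filter (fun r => ¬ Q r), F r :=
          Finset.sum_le_sum fun r hr => hQ r (Finset.mem_filter.1 hr).2
      _ ≤ _ := Finset.sum_le_sum_of_subset_of_nonneg (Finset.filter_subset _ _)
          fun r _ _ => hF r
  have h3 : 7 * 2 ^ L ≤ 8 * ((BL L).filter (fun r => ¬ Q r)).card := by omega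
  have h4 : 7 * (2 : ℝ) ^ L ≤ 8 * (((BL L).filter (fun r => ¬ Q r)).card : ℝ) := by
    exact_mod_cast h3
  nlinarith

theorem made_map_some (w : List Bool) : made (w.map some) = w.length := by
  unfold made
  rw [List.filter_eq_self.2 (fun a ha => by obtain ⟨b, _, rfl⟩ := List.mem_map.1 ha; rfl)]
  simp

theorem wrong_self (w : List Bool) : wrong (w.map some) w = 0 := by
  induction w with
  | nil => rfl
  | cons a w ih =>
    unfold wrong at ih ⊢
    cases a <;> simpa using ih

theorem three_le_bits {qs : List (List Bool)} (h : 2 ≤ qs.length) : 3 ≤ (bits qs).length := by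
  rw [bits_length]
  have := length_lt_sz qs
  omega

theorem eight_bad {n L : ℕ} (hn : 3 ≤ n)
    {Q : List Bool → Prop}
    (h : 2 ^ n * {r : List Bool | r.length = L ∧ Q r}.ncard ≤ 2 ^ L) :
    8 * {r : List Bool | r.length = L ∧ Q r}.ncard ≤ 2 ^ L := by
  refine le_trans (Nat.mul_le_mul_right _ ?_) h
  calc 8 = 2 ^ 3 := rfl
    _ ≤ 2 ^ n := Nat.pow_le_pow_right (by norm_num) hn

theorem one_div_pow_le {m c : ℕ} (hm : 2 ≤ m) (hc : 1 ≤ c) : 1 / (m : ℝ) ^ c ≤ 1 / 2 := by
  have h1 : (2 : ℝ) ≤ m := by exact_mod_cast hm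
  refine one_div_le_one_div_of_le (by norm_num) ?_
  calc (2 : ℝ) = 2 ^ 1 := (pow_one _).symm
    _ ≤ 2 ^ c := pow_le_pow_right₀ (by norm_num) hc
    _ ≤ (m : ℝ) ^ c := pow_le_pow_left₀ (by norm_num) h1 c

theorem dev_nonneg (h : List (Option Bool)) (w : List Bool) : 0 ≤ dev h w := by
  unfold dev
  split_ifs <;> positivity

theorem meanPredictable_of_solvable {A : Set (List Bool)} (h : Solvable A) {c : ℕ} (hc : 1 ≤ c)
    (ε : ℝ) : MeanPredictable c ε A := by
  obtain ⟨g, ℓ, hg, h⟩ := h
  refine ⟨g, ℓ, hg, fun qs hm _ => ?_⟩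
  have h1 := eight_bad (three_le_bits hm) (h qs (by
    rintro rfl; simp at hm))
  have hl : (answers A qs).length = qs.length := by simp [answers]
  have h2 := mean_ge (v := (qs.length : ℝ)) (Nat.cast_nonneg _)
    (fun r => dev_nonneg (g (pairBits (bits qs) r)) (answers A qs)) (fun r hr => ?_) h1
  · refine le_trans ?_ h2
    have h3 := one_div_pow_le hm hc
    have h4 : (2 : ℝ) ≤ qs.length := by exact_mod_cast hm
    linarith
  · have h3 : g (pairBits (bits qs) r) = (answers A qs).map some := not_not.1 hr
    rw [h3]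
    unfold dev
    rw [List.length_map, if_pos rfl, excess_self, made_map_some, hl]
    have h4 : (0 : ℝ) < qs.length := by exact_mod_cast (by omega : 0 < qs.length)
    rw [Int.cast_natCast, sq, mul_div_assoc, div_self h4.ne', mul_one]

theorem wins_of_solvable {A : Set (List Bool)} (h : Solvable A) {G : Game} (hG : G.Fair) {c : ℕ}
    (hc : 1 ≤ c) (K : ℕ) : Wins G c K A := by
  obtain ⟨g, ℓ, hg, h⟩ := h
  obtain ⟨best, hb1, hb2⟩ := hG.2.2.2.2.2
  have hgp : NPC.Poly g := poly_of_bits' hg
  have hbp : NPC.Poly best := PIso.poly_iff.2 hb1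
  have hg' : NPC.Poly (fun z : List Bool => best ((g z).map (fun a => a.getD false))) :=
    hbp.comp (NPC.Poly.map (F := fun _ (a : Option Bool) => a.getD false) hgp
      (NPC.Poly.optGetD (NPC.Poly.snd NPC.Poly.id) (NPC.Poly.const false)))
  refine ⟨fun z => best ((g z).map (fun a => a.getD false)), ℓ, PIso.poly_iff.1 hg',
    fun qs hm _ => ?_⟩
  have h1 := eight_bad (three_le_bits hm) (h qs (by
    rintro rfl; simp at hm))
  have hl : (answers A qs).length = qs.length := by simp [answers]
  have h2 := mean_ge (v := (2 * G.price qs.length : ℝ)) (by positivity)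
    (F := fun r => (G.pay (best ((g (pairBits (bits qs) r)).map (fun a => a.getD false)))
      (answers A qs) : ℝ))
    (fun r => Nat.cast_nonneg _) (fun r hr => ?_) h1
  · refine le_trans ?_ h2
    have h3 := one_div_pow_le hm hc
    have h5 : (0 : ℝ) ≤ G.price qs.length := Nat.cast_nonneg _
    nlinarith
  · have h3 : g (pairBits (bits qs) r) = (answers A qs).map some := not_not.1 hr
    have h4 : ((answers A qs).map some).map (fun a => a.getD false) = answers A qs := by
      rw [List.map_map]
      conv_rhs => rw [← List.map_id (answers A qs)]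
      rfl
    have h5 := hb2 (answers A qs) (by rw [hl]; exact hm)
    rw [hl] at h5
    rw [h3, h4]
    exact_mod_cast h5

theorem card_good {L : ℕ} {Q R : List Bool → Prop} (h : ∀ r, ¬ Q r → R r)
    (hb : 2 * {r : List Bool | r.length = L ∧ Q r}.ncard ≤ 2 ^ L) :
    2 ^ L ≤ 2 * {r : List Bool | r.length = L ∧ R r}.ncard := by
  classical
  rw [ncard_eq] at hb ⊢
  have h3 : ((BL L).filter Q).card + ((BL L).filter (fun r => ¬ Q r)).card = 2 ^ L := by
    rw [Finset.card_filter_add_card_filter_not, card_BL_nat]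
  have h4 : ((BL L).filter (fun r => ¬ Q r)).card ≤ ((BL L).filter R).card := by
    refine Finset.card_le_card fun r hr => ?_
    rw [Finset.mem_filter] at hr ⊢
    exact ⟨hr.1, h r hr.2⟩
  omega

theorem reachable_of_solvable {A : Set (List Bool)} (h : Solvable A) {f : ℕ → ℝ}
    (hf : ∀ m, 1 ≤ m → f m ≤ Real.sqrt m) (ε : ℝ) : Reachable f ε A := by
  obtain ⟨g, ℓ, hg, h⟩ := h
  refine ⟨g, ℓ, 2, hg, fun qs hqs _ => ?_⟩
  have h1 := h qs hqs
  have hn : 1 ≤ (bits qs).length := by
    rw [bits_length]
    have := length_lt_sz qs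
    omega
  have h2 : 2 * {r : List Bool | r.length = ℓ.eval (bits qs).length ∧
      g (pairBits (bits qs) r) ≠ (answers A qs).map some}.ncard ≤
        2 ^ ℓ.eval (bits qs).length := by
    refine le_trans (Nat.mul_le_mul_right _ ?_) h1
    calc 2 = 2 ^ 1 := rfl
      _ ≤ 2 ^ (bits qs).length := Nat.pow_le_pow_right (by norm_num) hn
  have h3 := card_good (Q := fun r => g (pairBits (bits qs) r) ≠ (answers A qs).map some)
    (R := fun r => Reaches f A qs (g (pairBits (bits qs) r))) (fun r hr => ?_) h2
  · simpa only [Polynomial.eval_ofNat] using h3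
  · rw [not_not.1 hr]
    have hl : (answers A qs).length = qs.length := by simp [answers]
    have hpos : 0 < qs.length := List.length_pos_of_ne_nil hqs
    refine ⟨by rw [List.length_map, hl], by rw [made_map_some, hl]; exact hpos, ?_⟩
    rw [excess_self, made_map_some, hl, Int.cast_natCast, abs_of_nonneg (Nat.cast_nonneg _)]
    calc f qs.length * Real.sqrt qs.length ≤ Real.sqrt qs.length * Real.sqrt qs.length :=
          mul_le_mul_of_nonneg_right (hf _ hpos) (Real.sqrt_nonneg _)
      _ = qs.length := Real.mul_self_sqrt (Nat.cast_nonneg _)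

/-- Coin tossing. -/
def coin (z : List Bool) : List (Option Bool) := ((unpair z).2.take (lst z).length).map some

theorem coin_poly : NPC.Poly coin := by
  have h1 : NPC.Poly (fun z : List Bool => lst z) :=
    NPC.Poly.optGetD (poly_unbits.comp (NPC.Poly.fst poly_unpair)) (NPC.Poly.const [])
  have h2 : NPC.Poly (fun z : List Bool => (unpair z).2.take (lst z).length) :=
    take_poly' (NPC.Poly.snd poly_unpair) (UPoly.length h1).toPoly
  exact NPC.Poly.map (F := fun _ (a : Bool) => some a) h2 (NPC.Poly.some (NPC.Poly.snd NPC.Poly.id))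

theorem coin_eq (qs : List (List Bool)) (r : List Bool) :
    coin (pairBits (bits qs) r) = (r.take qs.length).map some := by
  unfold coin lst
  simp only [unpair_pairBits, unbits_bits, Option.getD_some]

theorem mean_take {n m : ℕ} (h : m ≤ n) (F : List Bool → ℝ) :
    mean n (fun r => F (r.take m)) = (∑ w ∈ BL m, F w) / 2 ^ m := by
  obtain ⟨d, rfl⟩ := Nat.exists_eq_add_of_le h
  unfold mean
  rw [Pool.Agent.W762.RL.sumR_add]
  have h1 : ∀ r ∈ BL m, ∑ s ∈ BL d, F ((r ++ s).take m) = 2 ^ d * F r := by
    intro r hr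
    rw [mem_BL] at hr
    have h2 : ∀ s ∈ BL d, F ((r ++ s).take m) = F r := by
      intro s _
      rw [← hr, List.take_left]
    rw [Finset.sum_congr rfl h2, Finset.sum_const, nsmul_eq_mul, Pool.Agent.W762.RL.cardR]
  rw [Finset.sum_congr rfl h1, ← Finset.mul_sum, pow_add]
  rw [div_eq_div_iff (by positivity) (by positivity)]
  ring

theorem coin_mean (A : Set (List Bool)) (qs : List (List Bool)) (hqs : qs ≠ []) :
    mean ((Polynomial.X : Polynomial ℕ).eval (bits qs).length)
      (fun r => dev (coin (pairBits (bits qs) r)) (answers A qs)) = 1 := by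
  have hm : 0 < qs.length := List.length_pos_of_ne_nil hqs
  have hle : qs.length ≤ (bits qs).length := by rw [bits_length]; exact (length_lt_sz qs).le
  have hl : (answers A qs).length = qs.length := by simp [answers]
  rw [Polynomial.eval_X]
  simp only [coin_eq]
  rw [mean_take hle (fun w => dev (w.map some) (answers A qs))]
  have h1 : ∀ w ∈ BL qs.length, dev (w.map some) (answers A qs) =
      (excess (w.map some) (answers A qs) : ℝ) ^ 2 / qs.length := by
    intro w hw
    rw [mem_BL] at hw
    unfold dev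
    rw [List.length_map, hw, hl, if_pos rfl, made_map_some, hw]
  rw [Finset.sum_congr rfl h1, ← Finset.sum_div]
  have h2 := Pool.Agent.W376.RL.link (answers A qs) (fun x => (x : ℝ) ^ 2)
  rw [hl] at h2
  rw [h2]
  have h3 := Pool.Agent.W376.RL.D_two qs.length 0
  simp only [zero_add] at h3
  rw [h3]
  have h4 : (0 : ℝ) < qs.length := by exact_mod_cast hm
  field_simp
  norm_num

/-- Coin tossing reaches advantages of order `√ log m` with probability `1 / poly`. -/
theorem reachable_coin (hA : S_ANTI) {f : ℕ → ℝ} (hf : ∀ m, 1 ≤ m → f m ≤ Real.sqrt m) {c : ℝ}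
    (hc : ∀ m, 2 ≤ m → f m ≤ c * Real.sqrt (Real.log m)) (ε : ℝ) (A : Set (List Bool)) :
    Reachable f ε A := by
  classical
  obtain ⟨b, hb⟩ := hA (max c 1) (by positivity)
  refine ⟨coin, Polynomial.X, (Polynomial.X + 1) ^ b, polyTime_bits coin_poly, fun qs hqs _ => ?_⟩
  have hm : 0 < qs.length := List.length_pos_of_ne_nil hqs
  have hle : qs.length ≤ (bits qs).length := by rw [bits_length]; exact (length_lt_sz qs).le
  have hl : (answers A qs).length = qs.length := by simp [answers]
  rw [Polynomial.eval_X]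
  set n := (bits qs).length with hn
  have h1 := hb qs.length (answers A qs) hm hl
  -- a deviation which is large enough
  have key : ∀ r : List Bool, r.length = qs.length →
      min (qs.length : ℝ) (max c 1 * Real.sqrt (qs.length * Real.log qs.length)) ≤
        |(excess (r.map some) (answers A qs) : ℝ)| → Reaches f A qs (r.map some) := by
    intro r hr h2
    refine ⟨by rw [List.length_map, hr], by rw [made_map_some, hr]; exact hm, ?_⟩
    rw [made_map_some, hr]
    rcases Nat.lt_or_ge 1 qs.length with h3 | h3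
    · refine le_trans (le_min ?_ ?_) h2
      · calc f qs.length * Real.sqrt qs.length ≤ Real.sqrt qs.length * Real.sqrt qs.length :=
              mul_le_mul_of_nonneg_right (hf _ hm) (Real.sqrt_nonneg _)
          _ = qs.length := Real.mul_self_sqrt (Nat.cast_nonneg _)
      · calc f qs.length * Real.sqrt qs.length ≤
              (max c 1 * Real.sqrt (Real.log qs.length)) * Real.sqrt qs.length := by
              refine mul_le_mul_of_nonneg_right ((hc _ h3).trans ?_) (Real.sqrt_nonneg _)
              exact mul_le_mul_of_nonneg_right (le_max_left _ _) (Real.sqrt_nonneg _)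
          _ = _ := by rw [Real.sqrt_mul (Nat.cast_nonneg _)]; ring
    · have h4 : qs.length = 1 := by omega
      rw [h4]
      have h5 := hf 1 le_rfl
      simp only [Nat.cast_one, Real.sqrt_one, mul_one] at h5 ⊢
      refine h5.trans ?_
      obtain ⟨a, rfl⟩ := List.length_eq_one_iff.1 (hr.trans h4)
      obtain ⟨a', ha'⟩ := List.length_eq_one_iff.1 (hl.trans h4)
      rw [ha']
      cases a <;> cases a' <;> simp [excess]
  have h2 : 2 ^ (n - qs.length) * ((BL qs.length).filter (fun r =>
      min (qs.length : ℝ) (max c 1 * Real.sqrt (qs.length * Real.log qs.length)) ≤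
        |(excess (r.map some) (answers A qs) : ℝ)|)).card ≤
      {r : List Bool | r.length = n ∧ Reaches f A qs (coin (pairBits (bits qs) r))}.ncard := by
    have h3 := ncard_take_ge hle (fun r => Reaches f A qs (r.map some))
    have h4 : {r : List Bool | r.length = n ∧ Reaches f A qs (coin (pairBits (bits qs) r))} =
        {r : List Bool | r.length = n ∧ Reaches f A qs ((r.take qs.length).map some)} := by
      ext r
      simp only [coin_eq]
    rw [h4, mul_comm]
    refine le_trans (Nat.mul_le_mul_right _ ?_) h3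
    rw [ncard_eq]
    refine Finset.card_le_card fun r hr => ?_
    rw [Finset.mem_filter] at hr ⊢
    exact ⟨hr.1, key r (mem_BL.1 hr.1) hr.2⟩
  calc 2 ^ n = 2 ^ (n - qs.length) * 2 ^ qs.length := by rw [← pow_add]; congr 1; omega
    _ ≤ 2 ^ (n - qs.length) * ((qs.length + 1) ^ b * ((BL qs.length).filter (fun r =>
      min (qs.length : ℝ) (max c 1 * Real.sqrt (qs.length * Real.log qs.length)) ≤
        |(excess (r.map some) (answers A qs) : ℝ)|)).card) := Nat.mul_le_mul_left _ h1
    _ = (qs.length + 1) ^ b * (2 ^ (n - qs.length) * ((BL qs.length).filter (fun r =>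
      min (qs.length : ℝ) (max c 1 * Real.sqrt (qs.length * Real.log qs.length)) ≤
        |(excess (r.map some) (answers A qs) : ℝ)|)).card) := by ring
    _ ≤ (n + 1) ^ b *
      {r : List Bool | r.length = n ∧ Reaches f A qs (coin (pairBits (bits qs) r))}.ncard :=
        Nat.mul_le_mul (Nat.pow_le_pow_left (by omega) b) h2
    _ = _ := by simp

end Pool.Agent.W901.RL
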