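import Pool.Agent.W901.RL.Defs

/-!
# Statements of the parts of the project RL (randomised prediction laws)
-/

set_option autoImplicit false

namespace Pool.Agent.W901.RL

open Finset Pool.Agent.NPC Pool.Agent.H579R2.Spt Pool.Agent.H251R5.PQ Pool.Agent.W901.AT

/-- IND. A process which reads `T` blocks of `B` random bits: if each step goes wrong with probability
at most `1 / K`, the whole process goes wrong with probability at most `T / K`. -/
def S_IND : Prop :=
  ∀ (S : Type) (f : ℕ → List Bool → S → S) (s0 : S) (Good : ℕ → S → Prop) (B T K : ℕ),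
    Good 0 s0 →
    (∀ t < T, ∀ s, Good t s →
      K * {σ : List Bool | σ.length = B ∧ ¬ Good (t + 1) (f t σ s)}.ncard ≤ 2 ^ B) →
    K * {ρ : List Bool | ρ.length = T * B ∧
      ¬ Good T ((List.range T).foldl (fun s t => f t (blk B t ρ) s) s0)}.ncard ≤ T * 2 ^ (T * B)

/-- SEP. The labels of few strings of the same length can be separated. -/
def S_SEP : Prop :=
  ∀ (p k j : ℕ) (S : Finset (List Bool)) (u : List Bool), p.Prime → (∀ v ∈ S, v.length = j) →
    u ∈ S → S.card ≤ k → k * j < p →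
    ∃ s : List Bool, s.length = p * p ∧ ∀ v ∈ S, (lbl p s v = true ↔ v = u)

/-- GRAM. For most seeds the labels of many strings are nearly orthogonal. -/
def S_GRAM : Prop :=
  ∀ (p m j K Q : ℕ) (W : List (List Bool)), p.Prime → j < p → 0 < Q → W.Nodup →
    (∀ u ∈ W, u.length = j) → 64 * K * m ^ 2 * Q ^ 2 ≤ W.length →
    K * {σ : List Bool | σ.length = m * (p * p) ∧ ¬ ∀ h : List (Option Bool), h.length = m →
      8 * (Q : ℤ) * (W.map (fun u => (excess h (row p m σ u)) ^ 2)).sum ≤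
        (made h : ℤ) * (8 * Q + 1) * W.length}.ncard ≤ 2 ^ (m * (p * p))

/-- CHEB. Chebyshev's inequality for `R` independent blocks. -/
def S_CHEB : Prop :=
  ∀ (X : List Bool → ℕ) (B R K L L' lo d : ℕ), (∀ r, X r ≤ B) → L' ≤ L → d ≤ lo →
    lo * 2 ^ L' ≤ ∑ r ∈ BL L', X r → K * B ^ 2 ≤ R * d ^ 2 →
    K * {c : List Bool | c.length = R * L ∧
      ¬ R * (lo - d) ≤ ((List.range R).map (fun t => X ((blk L t c).take L'))).sum}.ncard ≤
      2 ^ (R * L)

/-- LAB. The label questions are in `NP`. -/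
def S_LAB : Prop :=
  ∀ (V0 : List Bool → List Bool) (pp : Polynomial ℕ), PolyTime V0 → InNPP (LabQ V0 pp)

/-- POLY. The search runs in polynomial time. -/
def S_POLY : Prop :=
  ∀ (Ψ : List (Option Bool) → List Bool → ℕ) (g : List Bool → List (Option Bool))
    (ℓ : Polynomial ℕ) (qf : List Bool × (ℕ × (ℕ × List Bool)) → List Bool) (P : List Bool → Par),
    Poly (fun q : List (Option Bool) × List Bool => Ψ q.1 q.2) → Poly g → Poly qf →
    UPoly (fun x => (P x).n) → UPoly (fun x => (P x).p) → UPoly (fun x => (P x).m) →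
    UPoly (fun x => (P x).R) → UPoly (fun x => (P x).Lc) → UPoly (fun x => (P x).N0) →
    UPoly (fun x => (P x).Z) → Poly (fun x => (P x).Th) →
    Poly (fun q : List Bool × List Bool => cands Ψ g ℓ qf (P q.1) q.1 q.2)

/-- RPW. If unique certificates can be found with high probability in polynomial time then
`NP ⊆ RP` (Valiant and Vazirani). -/
def S_RPW : Prop :=
  (∀ (V0 : List Bool → List Bool), PolyTime V0 → ∀ pp : Polynomial ℕ,
    ∃ (F : List Bool × List Bool → List (List Bool)) (L : List Bool → ℕ), Poly F ∧ UPoly L ∧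
      ∀ x w, ver V0 pp x w = true → (∀ w', ver V0 pp x w' = true → w' = w) →
        8 * {ρ : List Bool | ρ.length = L x ∧ w ∉ F (x, ρ)}.ncard ≤ 2 ^ L x) →
  ∀ A : Set (List Bool), InNP A → Pool.Agent.W920.NL.InRP A

/-- SEARCH. The search finds the certificate with high probability. -/
def S_SEARCH : Prop :=
  ∀ (A : Set (List Bool)) (Ψ : List (Option Bool) → List Bool → ℕ)
    (g : List Bool → List (Option Bool)) (ℓ : Polynomial ℕ)
    (qf : List Bool × (ℕ × (ℕ × List Bool)) → List Bool) (P : Par)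
    (V0 : List Bool → List Bool) (pp : Polynomial ℕ) (x w : List Bool),
    P.n = pp.eval x.length → (∃ M, P.N0 = P.Z * M) → 0 < P.Z → 0 < P.N0 → 0 < P.R → 0 < P.Th →
    (∀ q : List Bool × (ℕ × (ℕ × List Bool)), qf q ∈ A ↔ LabQ V0 pp q) →
    ver V0 pp x w = true → (∀ w', ver V0 pp x w' = true → w' = w) →
    E1 Ψ P → E2 A Ψ g ℓ qf P x →
    8 * {ρ : List Bool | ρ.length = P.n * P.Z * P.bl ∧ w ∉ cands Ψ g ℓ qf P x ρ}.ncard ≤
      2 ^ (P.n * P.Z * P.bl)

/-- TW. If one of `t` strings differs from all others then its labels are independent of the labels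
of the others. -/
def S_TW : Prop :=
  ∀ (p m j t : ℕ) (u : Fin t → List Bool) (a : Fin t) (ψ : Fin t → List Bool → ℝ), p.Prime →
    t * j < p → (∀ l, (u l).length = j) → (∀ l, l ≠ a → u l ≠ u a) → ∑ w ∈ BL m, ψ a w = 0 →
    ∑ σ ∈ BL (m * (p * p)), ∏ l, ψ l (row p m σ (u l)) = 0

/-- MOM. Moment bound for variables with vanishing mixed moments. -/
def S_MOM : Prop :=
  ∀ (Ω ι : Type) (_ : Fintype Ω) (_ : Fintype ι) (_ : DecidableEq ι) (X : ι → Ω → ℝ) (B : ℝ)
    (t : ℕ), Even t → 0 ≤ B → (∀ i ω, |X i ω| ≤ B) →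
    (∀ f : Fin t → ι, (∃ a, ∀ l, l ≠ a → f l ≠ f a) → ∑ ω, ∏ l, X (f l) ω = 0) →
    ∑ ω, (∑ i, X i ω) ^ t ≤
      (Fintype.card Ω : ℝ) * (B * t) ^ t * (Fintype.card ι : ℝ) ^ (t / 2)

/-- E1G. For most seeds the mean payoff of a fair bet over many strings is hardly more than its
price, for all vectors of predictions. -/
def S_E1G : Prop :=
  ∀ (p m j K Q B c t : ℕ) (φ : ℕ → ℕ → ℕ) (W : List (List Bool)), p.Prime → 0 < Q →
    t = 2 * (m + K) → t * j < p → (∀ s k, φ s k ≤ B) → c ≤ B →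
    (∀ s ≤ m, ∑ k ∈ range (s + 1), s.choose k * φ s k ≤ 2 ^ s * c) →
    W.Nodup → (∀ u ∈ W, u.length = j) → (16 * Q * B * t) ^ 2 ≤ W.length →
    K * {σ : List Bool | σ.length = m * (p * p) ∧ ¬ ∀ h : List (Option Bool), h.length = m →
      8 * Q * (W.map (fun u => φ (made h) (right h (row p m σ u)))).sum ≤
        (8 * Q * c + 1) * W.length}.ncard ≤ 2 ^ (m * (p * p))

end Pool.Agent.W901.RL
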