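import Pool.Agent.W901.RL.Search
import Pool.Agent.W901.RL.Stm

/-!
# The engine: randomised predictors of an `NP`-hard set give `NP ⊆ RP`
-/

set_option autoImplicit false

namespace Pool.Agent.W901.RL

open Finset Pool.Agent.NPC Pool.Agent.H579R2.Spt Pool.Agent.H251R5.PQ Pool.Agent.W901.AT

/-- For the questions `qf` there are a payoff, a predictor and parameters which make the search
work. -/
def Recipe (A : Set (List Bool)) (pp : Polynomial ℕ)
    (qf : List Bool × (ℕ × (ℕ × List Bool)) → List Bool) : Prop :=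
  ∃ (Ψ : List (Option Bool) → List Bool → ℕ) (g : List Bool → List (Option Bool))
    (ℓ : Polynomial ℕ) (P : List Bool → Par),
    Poly (fun q : List (Option Bool) × List Bool => Ψ q.1 q.2) ∧ Poly g ∧
    UPoly (fun x => (P x).p) ∧ UPoly (fun x => (P x).m) ∧
    UPoly (fun x => (P x).R) ∧ UPoly (fun x => (P x).Lc) ∧ UPoly (fun x => (P x).N0) ∧
    UPoly (fun x => (P x).Z) ∧ Poly (fun x => (P x).Th) ∧
    ∀ x, (P x).n = pp.eval x.length ∧ (∃ M, (P x).N0 = (P x).Z * M) ∧ 0 < (P x).Z ∧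
      0 < (P x).N0 ∧ 0 < (P x).R ∧ 0 < (P x).Th ∧ E1 Ψ (P x) ∧ E2 A Ψ g ℓ qf (P x) x

theorem engine (hIND : S_IND) (hLAB : S_LAB) (hPOLY : S_POLY) (hRPW : S_RPW)
    {A : Set (List Bool)} (hA : NPHard A)
    (h : ∀ (pp : Polynomial ℕ) (qf : List Bool × (ℕ × (ℕ × List Bool)) → List Bool), Poly qf →
      Recipe A pp qf) :
    ∀ L : Set (List Bool), InNP L → Pool.Agent.W920.NL.InRP L := by
  refine hRPW fun V0 hV0 pp => ?_
  obtain ⟨f, hf, hfA⟩ := hA _ (hLAB V0 pp hV0)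
  obtain ⟨Ψ, g, ℓ, P, hΨ, hg, h2, h3, h4, h5, h6, h7, h8, h9⟩ := h pp (fun q => f (bits q))
    ((PIso.poly_iff.2 hf).comp bits_poly)
  have hn : UPoly (fun x => (P x).n) := by
    have e : (fun x => (P x).n) = fun x : List Bool => pp.eval x.length :=
      funext fun x => (h9 x).1
    rw [e]
    exact (UPoly.length NPC.Poly.id).eval pp
  refine ⟨fun q => cands Ψ g ℓ (fun q => f (bits q)) (P q.1) q.1 q.2,
    fun x => (P x).n * (P x).Z * (P x).bl,
    hPOLY Ψ g ℓ _ P hΨ hg ((PIso.poly_iff.2 hf).comp bits_poly) hn h2 h3 h4 h5 h6 h7 h8,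
    (hn.mul h7).mul ((h3.mul (h2.mul h2)).add (h4.mul h5)), fun x w hw hu => ?_⟩
  obtain ⟨a1, a2, a3, a4, a5, a6, a7, a8⟩ := h9 x
  refine search_of_ind hIND A Ψ g ℓ (fun q => f (bits q)) (P x) V0 pp x w a1 a2 a3 a4 a5 a6
    (fun q => ?_) hw hu a7 a8
  rw [← hfA, bits_mem_lang]

end Pool.Agent.W901.RL
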