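import Pool.Agent.W901.RL.Sc
import Pool.Agent.W901.RL.Cnt
import Pool.Agent.W901.RL.E1F
import Pool.Agent.W901.AT.Cov

/-!
# Fair games
-/

set_option autoImplicit false

namespace Pool.Agent.W901.RL

open Finset Pool.Agent.NPC Pool.Agent.H579R2.Spt Pool.Agent.H251R5.PQ Pool.Agent.W901.AT

/-- A game whose moves are predictions (or any lists of this type). -/
structure OGame where
  pay : List (Option Bool) → List Bool → ℕ
  price : ℕ → ℕ

/-- Fairness. -/
def OGame.Fair (G : OGame) : Prop :=
  UPoly (fun q : List (Option Bool) × List Bool => G.pay q.1 q.2) ∧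
  UPoly (fun z : List Unit => G.price z.length) ∧
  (∃ r : Polynomial ℕ, ∀ h w, r.eval w.length < h.length → G.pay h w = 0) ∧
  (∀ m, 0 < G.price m) ∧
  ∀ m h, ∑ w ∈ BL m, G.pay h w ≤ 2 ^ m * G.price m

/-- Winning. -/
def WinsO (G : OGame) (c K : ℕ) (A : Set (List Bool)) : Prop :=
  ∃ (g : List Bool → List (Option Bool)) (ℓ : Polynomial ℕ), PolyTime (fun z => bits (g z)) ∧
    ∀ qs : List (List Bool), 2 ≤ qs.length → (∀ y ∈ qs, y.length ≤ qs.length ^ K) →
      G.price qs.length * (1 + 1 / (qs.length : ℝ) ^ c) ≤ mean (ℓ.eval (bits qs).length)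
        (fun r => G.pay (g (pairBits (bits qs) r)) (answers A qs))

/-- The payoff for a fair game. -/
def psiG (c : ℕ) (G : OGame) (h : List (Option Bool)) (w : List Bool) : ℕ :=
  8 * w.length ^ c * G.pay h w

theorem psiG_poly {G : OGame} (hG : G.Fair) (c : ℕ) :
    Poly (fun q : List (Option Bool) × List Bool => psiG c G q.1 q.2) := by
  unfold psiG
  have e2 : Poly (fun q : List (Option Bool) × List Bool => q.2) := NPC.Poly.snd NPC.Poly.id
  have e3 : Poly (fun q : List (Option Bool) × List Bool => q.2.length ^ c) := by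
    have := ((UPoly.length e2).eval (Polynomial.X ^ c)).toPoly
    simpa using this
  exact NPC.Poly.mul (NPC.Poly.mul (NPC.Poly.const 8) e3) hG.1.toPoly

theorem sz_replicate_unit (n : ℕ) : sz (List.replicate n ()) = 2 * n + 1 := by
  induction n with
  | zero => rfl
  | succ n ih => rw [List.replicate_succ, sz_list_cons, ih]; simp; omega

theorem game_bounds {G : OGame} (hG : G.Fair) : ∃ r Bp : Polynomial ℕ,
    (∀ h w, r.eval w.length < h.length → G.pay h w = 0) ∧
    (∀ m, G.price m ≤ Bp.eval m) ∧ ∀ h w, h.length ≤ r.eval w.length →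
      G.pay h w ≤ Bp.eval w.length := by
  obtain ⟨h1, h2, ⟨r, hr⟩, _⟩ := hG
  obtain ⟨p1, hp1⟩ := h1.sz_le
  obtain ⟨p2, hp2⟩ := h2.sz_le
  refine ⟨r, p1.comp (6 * r + 4 * Polynomial.X + 3) + p2.comp (2 * Polynomial.X + 1), hr,
    fun m => ?_, fun h w hw => ?_⟩
  · have h3 := hp2 (List.replicate m ())
    rw [sz_replicate_unit, sz_replicate_unit] at h3
    simp only [List.length_replicate] at h3
    simp only [Polynomial.eval_add, Polynomial.eval_comp, Polynomial.eval_mul, Polynomial.eval_X,
      Polynomial.eval_ofNat, Polynomial.eval_one]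
    omega
  · have h3 := hp1 (h, w)
    rw [sz_replicate_unit, sz_pair] at h3
    dsimp only at h3
    have h4 : sz h ≤ h.length * (5 + 1) + 1 := sz_le_length_mul h 5 fun a _ => by
      rcases a with _ | a
      · simp
      · rw [sz_some]; have := sz_bool_le a; omega
    have h5 := sz_listBool_le w
    have h6 : p1.eval (sz h + sz w + 1) ≤ p1.eval (6 * r.eval w.length + 4 * w.length + 3) :=
      eval_mono p1 (by omega)
    simp only [Polynomial.eval_add, Polynomial.eval_comp, Polynomial.eval_mul, Polynomial.eval_X,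
      Polynomial.eval_ofNat, Polynomial.eval_one]
    omega

/-- Good seeds for a fair game. -/
theorem e1_of_game (hTW : S_TW) (hMOM : S_MOM) {P : Par} {c B r : ℕ} {G : OGame} (hG : G.Fair)
    (hp : P.p.Prime) (hm : 0 < P.m) (hr : ∀ h w, w.length = P.m → r < h.length → G.pay h w = 0)
    (hB1 : G.price P.m ≤ B) (hB2 : ∀ h w, h.length ≤ r → w.length = P.m → G.pay h w ≤ B)
    (hnp : 2 * (r + 16 * (P.n * P.Z)) * P.n < P.p)
    (hTh : P.Th = P.R * (8 * P.m ^ c * G.price P.m + 4))
    (hZ : 8 * P.m ^ c * G.price P.m + 4 ≤ P.Z)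
    (hN : (16 * P.m ^ c * B * (2 * (r + 16 * (P.n * P.Z)))) ^ 2 ≤ P.N0) : E1 (psiG c G) P := by
  intro j hj W hnd hlen hN0 hN2
  have h1 := E1F hTW hMOM P.p P.m j (16 * (P.n * P.Z)) (P.m ^ c) B (G.price P.m) r
    (2 * (r + 16 * (P.n * P.Z))) G.pay W hp (by positivity) rfl
    (lt_of_le_of_lt (Nat.mul_le_mul_left _ hj) hnp) hB2 hB1
    (fun h _ => hG.2.2.2.2 P.m h) hnd hlen (by omega)
  refine le_trans (Nat.mul_le_mul_left _ (Set.ncard_le_ncard ?_ ?_)) h1
  · rintro σ ⟨hσ, hbd⟩
    refine ⟨hσ, fun h2 => hbd ?_⟩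
    intro h
    have key : (W.map (fun u => psiG c G h (row P.p P.m σ u))).sum ≤
        (8 * P.m ^ c * G.price P.m + 1) * W.length := by
      have h4 : (W.map (fun u => psiG c G h (row P.p P.m σ u))).sum = 8 * P.m ^ c *
          (W.map (fun u => G.pay h (row P.p P.m σ u))).sum := by
        rw [← List.sum_map_mul_left]
        congr 1
        refine List.map_congr_left fun u _ => ?_
        unfold psiG
        rw [row_length]
      rw [h4]
      rcases Nat.lt_or_ge r h.length with hl | hl
      · have h3 : (W.map (fun u => G.pay h (row P.p P.m σ u))).sum = 0 := by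
          apply List.sum_eq_zero
          intro y hy
          obtain ⟨u, _, rfl⟩ := List.mem_map.1 hy
          exact hr h _ (row_length _ _ _ _) hl
        rw [h3]
        exact Nat.zero_le _
      · exact h2 h hl
    rw [hTh]
    set Y := 8 * P.m ^ c * G.price P.m with hY
    have h5 : P.Z * (Y + 1) ≤ (P.Z - 1) * (Y + 4) := by
      obtain ⟨Z', hZ'⟩ : ∃ Z', P.Z = Z' + 1 := ⟨P.Z - 1, by omega⟩
      rw [hZ', Nat.add_sub_cancel]
      nlinarith
    calc P.R * P.Z * (W.map (fun u => psiG c G h (row P.p P.m σ u))).sum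
        ≤ P.R * P.Z * ((Y + 1) * W.length) := Nat.mul_le_mul_left _ key
      _ = P.R * W.length * (P.Z * (Y + 1)) := by ring
      _ ≤ P.R * W.length * ((P.Z - 1) * (Y + 4)) := Nat.mul_le_mul_left _ h5
      _ = _ := by ring
  · exact ((BL (P.m * (P.p * P.p))).finite_toSet).subset fun c hc => by simpa using hc.1

theorem game_recipe (hTW : S_TW) (hMOM : S_MOM) (hC : S_CHEB) {c : ℕ} {G : OGame} (hG : G.Fair)
    {A : Set (List Bool)} (hA : ∀ K, WinsO G c K A) (pp : Polynomial ℕ)
    (qf : List Bool × (ℕ × (ℕ × List Bool)) → List Bool) (hqf : Poly qf) : Recipe A pp qf := by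
  obtain ⟨rp, Bp, hrp, hprice, hpay⟩ := game_bounds hG
  set Zp : Polynomial ℕ := 8 * Polynomial.X ^ c * Bp + 4 with hZp
  set Kp : Polynomial ℕ := 2 * (rp + 16 * (Polynomial.X * Zp)) with hKp
  obtain ⟨a, ha⟩ := exists_pow_bound (Kp * Polynomial.X)
  obtain ⟨S, hS⟩ := qsize hqf a
  obtain ⟨e1, he1⟩ := exists_pow_bound S
  obtain ⟨g, ℓ, hg, hm⟩ := hA e1
  have hgp : Poly g := poly_of_bits' hg
  set Rp : Polynomial ℕ := 16 * (Polynomial.X * Zp) * (8 * Polynomial.X ^ c * Bp) ^ 2 + 1 with hRp
  set Mp : Polynomial ℕ := (16 * Polynomial.X ^ c * Bp * Kp) ^ 2 + 1 with hMp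
  set Lp : Polynomial ℕ := ℓ.comp (Polynomial.X * (S + 1) + 1) with hLp
  have hTP : Poly (fun z : List Unit =>
      Rp.eval z.length * (8 * z.length ^ c * G.price z.length + 4)) := by
    have e0 : UPoly (fun z : List Unit => z.length) := UPoly.length NPC.Poly.id
    have e1 : UPoly (fun z : List Unit => z.length ^ c) := by
      simpa using e0.eval (Polynomial.X ^ c)
    exact ((e0.eval Rp).mul ((((UPoly.const 8).mul e1).mul hG.2.1).add (UPoly.const 4))).toPoly
  refine recipe_of' ℓ (psiG_poly hG c) hgp a 1 Rp Lp Mp Zp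
    (fun b => Rp.eval b * (8 * b ^ c * G.price b + 4)) hTP 2 fun b x hb hx hn => ?_
  have hb0 : 0 < b := by omega
  have eZ : Zp.eval b = 8 * b ^ c * Bp.eval b + 4 := by simp [hZp]
  have eK : Kp.eval b = 2 * (rp.eval b + 16 * (b * Zp.eval b)) := by simp [hKp]
  have eR : Rp.eval b = 16 * (b * Zp.eval b) * (8 * b ^ c * Bp.eval b) ^ 2 + 1 := by simp [hRp]
  have eM : Mp.eval b = (16 * b ^ c * Bp.eval b * Kp.eval b) ^ 2 + 1 := by simp [hMp]
  have eL : Lp.eval b = ℓ.eval (b * (S.eval b + 1) + 1) := by simp [hLp]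
  have hpr := prm_spec (m := b ^ a) (by positivity)
  have hsz : ∀ j ≤ pp.eval x.length, ∀ s : List Bool, s.length = prm (b ^ a) * prm (b ^ a) →
      sz (qf (x, (prm (b ^ a), (j, s)))) ≤ S.eval b := fun j hj s hs =>
    hS b _ j x s hx hpr.2.2 (hj.trans hn) hs
  have hR0 : 0 < Rp.eval b := by rw [eR]; positivity
  have hZ0 : 0 < Zp.eval b := by rw [eZ]; positivity
  have hM0 : 0 < Mp.eval b := by rw [eM]; positivity
  have hKn : 2 * (rp.eval b + 16 * (pp.eval x.length * Zp.eval b)) ≤ Kp.eval b := by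
    rw [eK]
    gcongr
  refine ⟨hZ0, hM0, hR0, by positivity, ?_, ?_⟩
  · refine e1_of_game hTW hMOM (B := Bp.eval b) (r := rp.eval b) hG hpr.1 ?_ ?_ ?_ ?_ ?_ ?_ ?_ ?_
    · simp only [mkPar', pow_one]; exact hb0
    · simp only [mkPar', pow_one]
      intro h w hw hl
      exact hrp h w (by rw [hw]; exact hl)
    · simp only [mkPar', pow_one]; exact hprice b
    · simp only [mkPar', pow_one]
      intro h w hl hw
      have := hpay h w (by rw [hw]; exact hl)
      rwa [hw] at this
    · simp only [mkPar', pow_one]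
      refine lt_of_le_of_lt ?_ hpr.2.1
      calc 2 * (rp.eval b + 16 * (pp.eval x.length * Zp.eval b)) * pp.eval x.length
          ≤ Kp.eval b * b := Nat.mul_le_mul hKn hn
        _ = (Kp * Polynomial.X).eval b := by simp
        _ ≤ b ^ a := ha b hb
    · simp only [mkPar', pow_one]
    · simp only [mkPar', pow_one]
      rw [eZ]
      gcongr
      exact hprice b
    · simp only [mkPar', pow_one]
      calc (16 * b ^ c * Bp.eval b * (2 * (rp.eval b + 16 * (pp.eval x.length * Zp.eval b)))) ^ 2
          ≤ (16 * b ^ c * Bp.eval b * Kp.eval b) ^ 2 := by gcongr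
        _ ≤ Mp.eval b := by rw [eM]; omega
        _ ≤ Zp.eval b * Mp.eval b := Nat.le_mul_of_pos_left _ hZ0
  · refine e2_of_cheb hC 1 (8 * b ^ c * Bp.eval b) (8 * b ^ c * G.price b + 8) 4 ?_ (by omega)
      ?_ ?_ ?_ ?_
    · intro h w hw
      have h2 : w.length = b := by simpa [mkPar'] using hw
      unfold psiG
      rw [one_mul, h2]
      refine Nat.mul_le_mul_left _ ?_
      rcases Nat.lt_or_ge (rp.eval w.length) h.length with hl | hl
      · rw [hrp h w hl]; exact Nat.zero_le _
      · have := hpay h w hl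
        rwa [h2] at this
    · simp only [mkPar']
      have h2 : 8 * b ^ c * G.price b + 8 - 4 = 8 * b ^ c * G.price b + 4 := rfl
      rw [h2]
      have h3 : 0 < Rp.eval b * (8 * b ^ c * G.price b + 4) := by positivity
      omega
    · simp only [mkPar']
      rw [eR]
      calc 16 * (pp.eval x.length * Zp.eval b) * (8 * b ^ c * Bp.eval b) ^ 2
          ≤ 16 * (b * Zp.eval b) * (8 * b ^ c * Bp.eval b) ^ 2 := by gcongr
        _ ≤ 16 * (b * Zp.eval b) * (8 * b ^ c * Bp.eval b) ^ 2 + 1 := Nat.le_succ _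
        _ ≤ _ := Nat.le_mul_of_pos_right _ (by norm_num)
    · intro j hj σ hσ
      rw [bits_length]
      have h1 := sz_qlist (P := mkPar' a 1 Rp Lp Mp Zp
        (fun b => Rp.eval b * (8 * b ^ c * G.price b + 4)) (pp.eval x.length) b) hσ
        (fun s hs => hsz j hj s hs)
      have h2 : (mkPar' a 1 Rp Lp Mp Zp (fun b => Rp.eval b * (8 * b ^ c * G.price b + 4))
        (pp.eval x.length) b).m = b := by simp [mkPar']
      rw [h2] at h1
      exact (eval_mono ℓ h1).trans (le_of_eq eL.symm)
    · intro j hj σ hσ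
      set qs := qlist qf (mkPar' a 1 Rp Lp Mp Zp
        (fun b => Rp.eval b * (8 * b ^ c * G.price b + 4)) (pp.eval x.length) b) x j σ with hqs
      have hql : qs.length = b := by simp [hqs, qlist, mkPar']
      have h1 := hm qs (by rw [hql]; exact hb) ?_
      · rw [hql] at h1
        set L := ℓ.eval (bits qs).length with hL
        unfold mean at h1
        have hQ : (0 : ℝ) < (b : ℝ) ^ c := by positivity
        rw [le_div_iff₀ (by positivity)] at h1
        have hal : (answers A qs).length = b := by simp [answers, hql]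
        have h2 : ∀ r ∈ BL L, (psiG c G (g (pairBits (bits qs) r)) (answers A qs) : ℝ) =
            8 * (b : ℝ) ^ c * (G.pay (g (pairBits (bits qs) r)) (answers A qs) : ℝ) := by
          intro r hr
          unfold psiG
          rw [hal]
          push_cast
          rfl
        have h3 : (((8 * b ^ c * G.price b + 8) * 2 ^ L : ℕ) : ℝ) ≤
            ((∑ r ∈ BL L, 1 * psiG c G (g (pairBits (bits qs) r)) (answers A qs) : ℕ) : ℝ) := by
          push_cast
          simp only [one_mul]
          rw [Finset.sum_congr rfl h2, ← Finset.mul_sum]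
          refine le_trans ?_ (mul_le_mul_of_nonneg_left h1 (by positivity))
          have h4 : (1 : ℝ) ≤ G.price b := by exact_mod_cast hG.2.2.2.1 b
          have h5 : 8 * (b : ℝ) ^ c * (G.price b * (1 + 1 / (b : ℝ) ^ c) * 2 ^ L) =
              (8 * (b : ℝ) ^ c * G.price b + 8 * G.price b) * 2 ^ L := by
            field_simp
          rw [h5]
          gcongr
          linarith
        exact_mod_cast h3
      · intro y hy
        rw [hql]
        obtain ⟨i, hi, rfl⟩ := List.mem_map.1 hy
        have h2 := hsz j hj _ (blk_length (List.mem_range.1 hi) hσ.ge)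
        have h3 := length_lt_sz (qf (x, (prm (b ^ a), (j, blk (prm (b ^ a) * prm (b ^ a)) i σ))))
        have h4 := he1 b hb
        change (qf (x, (prm (b ^ a), (j, blk (prm (b ^ a) * prm (b ^ a)) i σ)))).length ≤ b ^ e1
        omega

/-- Moves as bit strings. -/
def dec (h : List (Option Bool)) : List Bool := h.map (fun a => a.getD false)

theorem dec_map_some (h : List Bool) : dec (h.map some) = h := by
  unfold dec
  rw [List.map_map]
  conv_rhs => rw [← List.map_id h]
  rfl

theorem dec_poly {α : Type} [TEnc α] {h : α → List (Option Bool)} (hh : Poly h) :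
    Poly (fun a => dec (h a)) :=
  NPC.Poly.map (F := fun _ (a : Option Bool) => a.getD false) hh
    (NPC.Poly.optGetD (NPC.Poly.snd NPC.Poly.id) (NPC.Poly.const false))

/-- The game with moves in the other format. -/
def Game.toO (G : Game) : OGame := ⟨fun h w => G.pay (dec h) w, G.price⟩

theorem Game.Fair.toO {G : Game} (hG : G.Fair) : G.toO.Fair := by
  obtain ⟨⟨P, hP1, hP2⟩, ⟨P', hP1', hP2'⟩, h3, ⟨r, hr⟩, h5, _⟩ := hG
  have e1 : Poly (fun q : List (Option Bool) × List Bool => q.1) := NPC.Poly.fst NPC.Poly.id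
  have e2 : Poly (fun q : List (Option Bool) × List Bool => q.2) := NPC.Poly.snd NPC.Poly.id
  refine ⟨?_, ?_, ⟨r, fun h w hl => ?_⟩, h3, fun m h => h5 m (dec h)⟩
  · have h1 : Poly P := PIso.poly_iff.2 hP1
    have h2 := UPoly.length (h1.comp (H622R2.poly_pairBits (dec_poly e1) e2))
    simp only [hP2, List.length_replicate] at h2
    exact h2
  · have h1 : Poly P' := PIso.poly_iff.2 hP1'
    have h2 : Poly (fun z : List Unit => z.map (fun _ => true)) :=
      NPC.Poly.map (F := fun _ (_ : Unit) => true) NPC.Poly.id (NPC.Poly.const true)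
    have h4 := UPoly.length (h1.comp h2)
    have h5 : ∀ z : List Unit, P' (z.map (fun _ => true)) = List.replicate (G.price z.length) true := by
      intro z
      rw [List.map_const', hP2']
    simp only [h5, List.length_replicate] at h4
    exact h4
  · refine hr (dec h) w ?_
    unfold dec
    rw [List.length_map]
    exact hl

theorem Wins.toO {G : Game} {c K : ℕ} {A : Set (List Bool)} (h : Wins G c K A) :
    WinsO G.toO c K A := by
  obtain ⟨g, ℓ, hg, h⟩ := h
  have hgp : Poly g := PIso.poly_iff.2 hg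
  have h1 : Poly (fun z => (g z).map some) :=
    NPC.Poly.map (F := fun _ (a : Bool) => some a) hgp (NPC.Poly.some (NPC.Poly.snd NPC.Poly.id))
  refine ⟨fun z => (g z).map some, ℓ, PIso.poly_iff.1 (bits_poly.comp h1), fun qs hm hl => ?_⟩
  have h2 := h qs hm hl
  simp only [Game.toO, dec_map_some]
  exact h2

end Pool.Agent.W901.RL
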