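import Pool.Agent.W901.RL.Defs

/-!
# Statements of the parts for large deviations
-/

set_option autoImplicit false

namespace Pool.Agent.W901.RL

open Finset Pool.Agent.NPC Pool.Agent.H579R2.Spt Pool.Agent.H251R5.PQ Pool.Agent.W901.AT

/-- The sign of a label. -/
def sg (b : Bool) : ℤ := if b then -1 else 1

/-- LMOM. Moments of signed sums of labels are at most Gaussian. -/
def S_LMOM : Prop :=
  ∀ (p j k q : ℕ) (u : Fin q → List Bool) (e : Fin q → ℤ), p.Prime → 2 * k * j < p →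
    Function.Injective u → (∀ l, (u l).length = j) → (∀ l, e l = 1 ∨ e l = -1) →
    ∑ s ∈ BL (p * p), (∑ l, e l * sg (lbl p s (u l))) ^ (2 * k) ≤ 2 ^ (p * p) * (2 * k * q : ℤ) ^ k

/-- SAMP. A large set contains a sample of `q ≤ m` different elements whose sums are close to the
expected ones for `m` functions with values `±1`. -/
def S_SAMP : Prop :=
  ∀ (ι : Type) (_ : Fintype ι) (m q k : ℕ) (y : Fin m → ι → ℝ), 1 ≤ q → q ≤ m → 1 ≤ k →
    2 * m ^ 2 ≤ Fintype.card ι → 8 * m ≤ 4 ^ k → (∀ i u, |y i u| ≤ 1) →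
    ∃ f : Fin q → ι, Function.Injective f ∧ ∀ i : Fin m,
      |∑ l, y i (f l) - q * ((∑ u, y i u) / Fintype.card ι)| ≤ Real.sqrt (16 * k * q)

/-- LAYER. A sum is small if there are few large terms. -/
def S_LAYER : Prop :=
  ∀ (ι : Type) (_ : DecidableEq ι) (J : Finset ι) (w : ι → ℝ) (c : ℝ), 0 ≤ c →
    (∀ i ∈ J, 0 ≤ w i ∧ w i ≤ 1) →
    (∀ θ : ℝ, 0 < θ → θ ≤ 1 → ((J.filter (fun i => θ ≤ w i)).card : ℝ) * θ ^ 2 ≤ c) →
    ∑ i ∈ J, w i ≤ 2 * Real.sqrt (c * J.card)

/-- E1L. For most seeds, for all vectors `h` of predictions the labels of few strings deviate from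
`h` by much more than coin tossing. -/
def S_E1L : Prop :=
  ∀ (p m j K k T : ℕ) (W : List (List Bool)), p.Prime → 1 ≤ m → 1 ≤ k → 2 * k * j < p →
    192 * k ≤ T → 4 * (W.length + 2) * m * (K + 1) ≤ 4 ^ k → W.Nodup → (∀ u ∈ W, u.length = j) →
    K * {σ : List Bool | σ.length = m * (p * p) ∧ ¬ ∀ h : List (Option Bool), h.length = m →
      (W.filter (fun u => decide (0 < made h ∧
        (T : ℤ) * made h ≤ (excess h (row p m σ u)) ^ 2))).length ≤ 2 * m ^ 2}.ncard ≤
      2 ^ (m * (p * p))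

/-- ANTI. Coin tossing reaches deviations of order `√ (m log m)` with probability `1 / poly`. -/
def S_ANTI : Prop :=
  ∀ c : ℝ, 0 < c → ∃ b : ℕ, ∀ (m : ℕ) (w : List Bool), 1 ≤ m → w.length = m →
    2 ^ m ≤ (m + 1) ^ b * ((BL m).filter (fun r =>
      min (m : ℝ) (c * Real.sqrt (m * Real.log m)) ≤
        |(excess (r.map some) w : ℝ)|)).card

end Pool.Agent.W901.RL
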