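import Pool.Agent.W901.RL.Sc
import Pool.Agent.W901.RL.Cnt
import Pool.Agent.W901.RL.Stm2
import Pool.Agent.W901.AT.Cov

/-!
# Large deviations
-/

set_option autoImplicit false

namespace Pool.Agent.W901.RL

open Finset Pool.Agent.NPC Pool.Agent.H579R2.Spt Pool.Agent.H251R5.PQ Pool.Agent.W901.AT

/-- The payoff for large deviations. -/
def psiL (κ : ℕ) (h : List (Option Bool)) (w : List Bool) : ℕ :=
  bif decide (h.length = w.length) && (decide (0 < made h) &&
    decide (192 * (κ * (Nat.bits w.length).length) * made h ≤ gap h w * gap h w)) then 1 else 0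

theorem psiL_poly (κ : ℕ) : Poly (fun q : List (Option Bool) × List Bool => psiL κ q.1 q.2) := by
  unfold psiL
  have e1 : Poly (fun q : List (Option Bool) × List Bool => q.1) := NPC.Poly.fst NPC.Poly.id
  have e2 : Poly (fun q : List (Option Bool) × List Bool => q.2) := NPC.Poly.snd NPC.Poly.id
  exact NPC.Poly.cond (NPC.Poly.and (NPC.Poly.decide_eq (NPC.Poly.length e1) (NPC.Poly.length e2))
    (NPC.Poly.and (NPC.Poly.decide_lt (NPC.Poly.const 0) (made_poly e1).toPoly)
      (NPC.Poly.decide_le (NPC.Poly.mul (NPC.Poly.mul (NPC.Poly.const 192)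
        (NPC.Poly.mul (NPC.Poly.const κ) (NPC.Poly.length (NPC.Poly.natBits (NPC.Poly.length e2)))))
          (made_poly e1).toPoly) (NPC.Poly.mul (gap_poly e1 e2) (gap_poly e1 e2)))))
    (NPC.Poly.const 1) (NPC.Poly.const 0)

theorem bits_length_eq (n : ℕ) : (Nat.bits n).length = Nat.size n := Nat.size_eq_bits_len n ▸ rfl

theorem psiL_le (κ : ℕ) (h : List (Option Bool)) (w : List Bool) : psiL κ h w ≤ 1 := by
  unfold psiL
  cases (decide (h.length = w.length) && (decide (0 < made h) &&
    decide (192 * (κ * (Nat.bits w.length).length) * made h ≤ gap h w * gap h w))) <;> simp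

theorem psiL_eq {κ p m : ℕ} {h : List (Option Bool)} (hl : h.length = m) (σ u : List Bool) :
    psiL κ h (row p m σ u) = bif decide (0 < made h ∧
      ((192 * (κ * Nat.size m) : ℕ) : ℤ) * made h ≤ (excess h (row p m σ u)) ^ 2) then 1 else 0 := by
  unfold psiL
  rw [row_length, decide_eq_true hl, Bool.true_and, bits_length_eq, ← Bool.decide_and]
  congr 1
  apply decide_eq_decide.2
  refine and_congr_right fun _ => ?_
  rw [← gap_sq, ← sq]
  exact ⟨fun h => by exact_mod_cast h, fun h => by exact_mod_cast h⟩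

theorem sum_bif {α : Type} (W : List α) (q : α → Bool) :
    (W.map (fun u => bif q u then (1 : ℕ) else 0)).sum = (W.filter q).length := by
  induction W with
  | nil => simp
  | cons u W ih =>
    rw [List.map_cons, List.sum_cons, ih]
    cases hq : q u
    · rw [List.filter_cons_of_neg (by simp [hq])]; simp
    · rw [List.filter_cons_of_pos hq]; simp; omega

theorem e1_of_large (hE : S_E1L) {P : Par} {κ : ℕ} (hp : P.p.Prime) (hm : 0 < P.m) (hκ : 0 < κ)
    (hnp : 2 * (κ * Nat.size P.m) * P.n < P.p) (hTh : P.Th = 1) (hZ : P.Z = 2)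
    (hN : 4 * P.m ^ 2 * P.R ≤ P.N0)
    (h4 : 4 * (2 * P.N0 + 2) * P.m * (16 * (P.n * P.Z) + 1) ≤ 4 ^ (κ * Nat.size P.m)) :
    E1 (psiL κ) P := by
  intro j hj W hnd hlen hN0 hN2
  have hsz : 0 < Nat.size P.m := Nat.size_pos.2 hm
  have h1 := hE P.p P.m j (16 * (P.n * P.Z)) (κ * Nat.size P.m) (192 * (κ * Nat.size P.m)) W hp hm
    (Nat.mul_pos hκ hsz) (lt_of_le_of_lt (Nat.mul_le_mul_left _ hj) hnp) le_rfl
    (le_trans (by gcongr) h4) hnd hlen
  refine le_trans (Nat.mul_le_mul_left _ (Set.ncard_le_ncard ?_ ?_)) h1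
  · rintro σ ⟨hσ, hb⟩
    refine ⟨hσ, fun h2 => hb ?_⟩
    intro h
    have key : (W.map (fun u => psiL κ h (row P.p P.m σ u))).sum ≤ 2 * P.m ^ 2 := by
      by_cases hl : h.length = P.m
      · have h3 := h2 h hl
        simp only [psiL_eq hl]
        rw [sum_bif]
        exact h3
      · have h3 : (W.map (fun u => psiL κ h (row P.p P.m σ u))).sum = 0 := by
          apply List.sum_eq_zero
          intro y hy
          obtain ⟨u, _, rfl⟩ := List.mem_map.1 hy
          unfold psiL
          rw [row_length, decide_eq_false hl]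
          rfl
        rw [h3]
        exact Nat.zero_le _
    rw [hTh, hZ]
    calc P.R * 2 * (W.map (fun u => psiL κ h (row P.p P.m σ u))).sum
        ≤ P.R * 2 * (2 * P.m ^ 2) := Nat.mul_le_mul_left _ key
      _ = 4 * P.m ^ 2 * P.R := by ring
      _ ≤ W.length := by omega
      _ = _ := by simp
  · exact ((BL (P.m * (P.p * P.p))).finite_toSet).subset fun c hc => by simpa using hc.1

/-- Reaching a large advantage gives the payoff. -/
theorem psiL_of_reaches {κ : ℕ} {f : ℕ → ℝ} {A : Set (List Bool)} {qs : List (List Bool)}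
    {h : List (Option Bool)} (hf : Real.sqrt (192 * (κ * Nat.size qs.length) : ℕ) ≤ f qs.length)
    (hr : Reaches f A qs h) : psiL κ h (answers A qs) = 1 := by
  obtain ⟨h1, h2, h3⟩ := hr
  have hl : (answers A qs).length = qs.length := by simp [answers]
  unfold psiL
  rw [hl, decide_eq_true h1, decide_eq_true h2, Bool.true_and, Bool.true_and, bits_length_eq]
  have h4 : 192 * (κ * Nat.size qs.length) * made h ≤
      gap h (answers A qs) * gap h (answers A qs) := by
    have h5 : Real.sqrt (192 * (κ * Nat.size qs.length) : ℕ) * Real.sqrt (made h) ≤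
        |(excess h (answers A qs) : ℝ)| :=
      (mul_le_mul_of_nonneg_right hf (Real.sqrt_nonneg _)).trans h3
    have h6 : (gap h (answers A qs) : ℝ) = |(excess h (answers A qs) : ℝ)| := by
      have := gap_eq h (answers A qs)
      exact_mod_cast this
    rw [← h6] at h5
    have h7 := mul_self_le_mul_self (by positivity) h5
    have h8 : Real.sqrt (192 * (κ * Nat.size qs.length) : ℕ) * Real.sqrt (made h) *
        (Real.sqrt (192 * (κ * Nat.size qs.length) : ℕ) * Real.sqrt (made h)) =
        ((192 * (κ * Nat.size qs.length) * made h : ℕ) : ℝ) := by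
      have e1 := Real.mul_self_sqrt (Nat.cast_nonneg (α := ℝ) (192 * (κ * Nat.size qs.length)))
      have e2 := Real.mul_self_sqrt (Nat.cast_nonneg (α := ℝ) (made h))
      calc _ = (Real.sqrt (192 * (κ * Nat.size qs.length) : ℕ) *
          Real.sqrt (192 * (κ * Nat.size qs.length) : ℕ)) *
            (Real.sqrt (made h) * Real.sqrt (made h)) := by ring
        _ = _ := by rw [e1, e2]; push_cast; ring
    rw [h8] at h7
    exact_mod_cast h7
  rw [decide_eq_true h4]
  rfl

theorem size_le_log {m : ℕ} (hm : 2 ≤ m) : (Nat.size m : ℝ) ≤ 3 * Real.log m := by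
  have h1 : 2 ^ (Nat.size m - 1) ≤ m := by
    have h2 : Nat.size m - 1 < Nat.size m := by
      have : 0 < Nat.size m := Nat.size_pos.2 (by omega)
      omega
    exact Nat.lt_size.1 h2
  have h2 : 2 ≤ Nat.size m := by
    have : 1 < Nat.size m := Nat.lt_size.2 (by simpa using hm)
    omega
  have h3 : ((Nat.size m - 1 : ℕ) : ℝ) * Real.log 2 ≤ Real.log m := by
    have h4 : Real.log (((2 ^ (Nat.size m - 1) : ℕ)) : ℝ) ≤ Real.log m :=
      Real.log_le_log (by positivity) (by exact_mod_cast h1)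
    push_cast at h4
    rwa [Real.log_pow] at h4
  have h4 := Real.log_two_gt_d9
  have h5 : (Nat.size m : ℝ) ≤ 2 * ((Nat.size m - 1 : ℕ) : ℝ) := by
    have : Nat.size m ≤ 2 * (Nat.size m - 1) := by omega
    exact_mod_cast this
  have h6 : (0 : ℝ) ≤ ((Nat.size m - 1 : ℕ) : ℝ) := Nat.cast_nonneg _
  nlinarith

theorem ld_recipe (hE : S_E1L) (hC : S_CHEB) {f : ℕ → ℝ} {ε : ℝ} (hε : 0 < ε)
    (hf : Filter.Tendsto (fun m : ℕ => f m / Real.sqrt (Real.log m)) Filter.atTop Filter.atTop)
    {A : Set (List Bool)} (hA : Reachable f ε A) (pp : Polynomial ℕ)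
    (qf : List Bool × (ℕ × (ℕ × List Bool)) → List Bool) (hqf : Poly qf) : Recipe A pp qf := by
  obtain ⟨g, ℓ, q, hg, hm⟩ := hA
  have hgp : Poly g := poly_of_bits' hg
  obtain ⟨S, hS⟩ := qsize hqf 3
  obtain ⟨e1, he1⟩ := exists_pow_bound S
  set e : ℕ := ⌈(e1 : ℝ) / ε⌉₊ + 1 with he
  have heε : (e1 : ℝ) ≤ e * ε := by
    have h1 : (e1 : ℝ) / ε ≤ (e : ℝ) := by
      rw [he]
      push_cast
      linarith [Nat.le_ceil ((e1 : ℝ) / ε)]
    rwa [div_le_iff₀ hε] at h1
  set Sp : Polynomial ℕ := Polynomial.X ^ e * (S + 1) + 1 with hSp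
  set Rp : Polynomial ℕ := 16 * (Polynomial.X * 2) * (2 * q.comp Sp) ^ 2 + 1 with hRp
  set Mp : Polynomial ℕ := 2 * (Polynomial.X ^ e) ^ 2 * Rp with hMp
  set Fp : Polynomial ℕ := 4 * (2 * (2 * Mp) + 2) * Polynomial.X ^ e *
    (16 * (Polynomial.X * 2) + 1) with hFp
  obtain ⟨κ0, hκ0⟩ := exists_pow_bound Fp
  set κ : ℕ := κ0 + 1 with hκ
  obtain ⟨M0, hM0⟩ := Filter.eventually_atTop.1 (Filter.tendsto_atTop.1 hf (Real.sqrt (576 * κ)))
  refine recipe_of ℓ (psiL_poly κ) hgp 3 e Rp (ℓ.comp Sp) Mp 2 1 (2 * κ * e + M0 + 2)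
    fun b x hb hx hn => ?_
  have hb2 : 2 ≤ b := by omega
  have hb0 : 0 < b := by omega
  have eR : Rp.eval b = 16 * (b * 2) * (2 * q.eval (Sp.eval b)) ^ 2 + 1 := by simp [hRp]
  have eS : Sp.eval b = b ^ e * (S.eval b + 1) + 1 := by simp [hSp]
  have eM : Mp.eval b = 2 * (b ^ e) ^ 2 * Rp.eval b := by simp [hMp]
  have eF : Fp.eval b = 4 * (2 * (2 * Mp.eval b) + 2) * b ^ e * (16 * (b * 2) + 1) := by simp [hFp]
  have hpr := prm_spec (m := b ^ 3) (by positivity)
  have hbe1 : b ≤ b ^ e := by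
    calc b = b ^ 1 := (pow_one b).symm
      _ ≤ b ^ e := Nat.pow_le_pow_right hb0 (by omega)
  have hsz : ∀ j ≤ pp.eval x.length, ∀ s : List Bool, s.length = prm (b ^ 3) * prm (b ^ 3) →
      sz (qf (x, (prm (b ^ 3), (j, s)))) ≤ S.eval b := fun j hj s hs =>
    hS b _ j x s hx hpr.2.2 (hj.trans hn) hs
  have hmpos : 0 < b ^ e := by positivity
  have hsize : Nat.size (b ^ e) ≤ e * b := by
    rw [Nat.size_le]
    calc b ^ e < (2 ^ b) ^ e := Nat.pow_lt_pow_left Nat.lt_two_pow_self (by omega)
      _ = 2 ^ (e * b) := by rw [← pow_mul, mul_comm]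
  refine ⟨by simp, by rw [eM, eR]; positivity, by rw [eR]; positivity, by simp, ?_, ?_⟩
  · refine e1_of_large hE hpr.1 hmpos (by omega) ?_ (by simp [mkPar]) (by simp [mkPar]) ?_ ?_
    · simp only [mkPar]
      refine lt_of_le_of_lt ?_ hpr.2.1
      calc 2 * (κ * Nat.size (b ^ e)) * pp.eval x.length
          ≤ 2 * (κ * (e * b)) * b := by gcongr
        _ = (2 * κ * e) * (b * b) := by ring
        _ ≤ b * (b * b) := Nat.mul_le_mul_right _ (by omega)
        _ = b ^ 3 := by ring
    · simp only [mkPar, Polynomial.eval_ofNat]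
      rw [eM]
      apply le_of_eq
      ring
    · simp only [mkPar, Polynomial.eval_ofNat]
      calc 4 * (2 * (2 * Mp.eval b) + 2) * b ^ e * (16 * (pp.eval x.length * 2) + 1)
          ≤ 4 * (2 * (2 * Mp.eval b) + 2) * b ^ e * (16 * (b * 2) + 1) := by gcongr
        _ = Fp.eval b := eF.symm
        _ ≤ b ^ κ0 := hκ0 b hb2
        _ ≤ (2 ^ Nat.size (b ^ e)) ^ κ0 := by
            gcongr
            exact hbe1.trans (Nat.lt_size_self _).le
        _ = 2 ^ (κ0 * Nat.size (b ^ e)) := by rw [← pow_mul, mul_comm]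
        _ ≤ 2 ^ (κ * Nat.size (b ^ e)) := Nat.pow_le_pow_right (by norm_num) (by gcongr; omega)
        _ ≤ 4 ^ (κ * Nat.size (b ^ e)) := Nat.pow_le_pow_left (by norm_num) _
  · refine e2_of_cheb hC (2 * q.eval (Sp.eval b)) (2 * q.eval (Sp.eval b)) 2 1 ?_ (by norm_num)
      ?_ ?_ ?_ ?_
    · intro h w hw
      calc 2 * q.eval (Sp.eval b) * psiL κ h w ≤ 2 * q.eval (Sp.eval b) * 1 :=
            Nat.mul_le_mul_left _ (psiL_le κ h w)
        _ = _ := mul_one _
    · simp only [mkPar, Polynomial.eval_one]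
      rw [eR]
      simp
    · simp only [mkPar, Polynomial.eval_ofNat]
      rw [eR]
      calc 16 * (pp.eval x.length * 2) * (2 * q.eval (Sp.eval b)) ^ 2
          ≤ 16 * (b * 2) * (2 * q.eval (Sp.eval b)) ^ 2 := by gcongr
        _ ≤ _ := by omega
    · intro j hj σ hσ
      rw [bits_length]
      simp only [mkPar, Polynomial.eval_comp] at hj hσ ⊢
      refine eval_mono ℓ ?_
      rw [eS]
      exact sz_qlist (P := mkPar 3 e Rp (ℓ.comp Sp) Mp 2 1 (pp.eval x.length) b) hσ
        (fun s hs => hsz j hj s hs)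
    · intro j hj σ hσ
      set qs := qlist qf (mkPar 3 e Rp (ℓ.comp Sp) Mp 2 1 (pp.eval x.length) b) x j σ with hqs
      have hql : qs.length = b ^ e := by simp [hqs, qlist, mkPar]
      have hszq : (bits qs).length ≤ Sp.eval b := by
        rw [bits_length, eS]
        exact sz_qlist (P := mkPar 3 e Rp (ℓ.comp Sp) Mp 2 1 (pp.eval x.length) b) hσ
          (fun s hs => hsz j hj s hs)
      have h1 := hm qs ?_ ?_
      · set L := ℓ.eval (bits qs).length with hL
        have hfm : Real.sqrt (192 * (κ * Nat.size qs.length) : ℕ) ≤ f qs.length := by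
          rw [hql]
          have h2 : M0 ≤ b ^ e := by omega
          have h3 := hM0 (b ^ e) h2
          have hlog : 0 < Real.log ((b ^ e : ℕ) : ℝ) :=
            Real.log_pos (by exact_mod_cast (by omega : 1 < b ^ e))
          rw [le_div_iff₀ (Real.sqrt_pos.2 hlog), ← Real.sqrt_mul (by positivity)] at h3
          refine le_trans (Real.sqrt_le_sqrt ?_) h3
          have h4 := size_le_log (m := b ^ e) (by omega)
          push_cast at h4 ⊢
          have h5 : (0 : ℝ) ≤ κ := Nat.cast_nonneg _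
          nlinarith [mul_le_mul_of_nonneg_left h4 h5]
        have h2 : {r : List Bool | r.length = L ∧ Reaches f A qs (g (pairBits (bits qs) r))}.ncard ≤
            ∑ r ∈ BL L, psiL κ (g (pairBits (bits qs) r)) (answers A qs) := by
          classical
          rw [ncard_eq]
          rw [Finset.card_filter]
          refine Finset.sum_le_sum fun r hr => ?_
          split_ifs with h3
          · rw [psiL_of_reaches hfm h3]
          · exact Nat.zero_le _
        have h3 : 2 ^ L ≤ q.eval (Sp.eval b) *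
            ∑ r ∈ BL L, psiL κ (g (pairBits (bits qs) r)) (answers A qs) :=
          h1.trans (Nat.mul_le_mul (eval_mono q hszq) h2)
        rw [← Finset.mul_sum]
        calc 2 * 2 ^ L ≤ 2 * (q.eval (Sp.eval b) *
            ∑ r ∈ BL L, psiL κ (g (pairBits (bits qs) r)) (answers A qs)) :=
              Nat.mul_le_mul_left _ h3
          _ = _ := by ring
      · intro h0
        rw [h0] at hql
        simp at hql
        omega
      · intro y hy
        rw [hql]
        obtain ⟨i, hi, rfl⟩ := List.mem_map.1 hy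
        have h2 := hsz j hj _ (blk_length (List.mem_range.1 hi) hσ.ge)
        have h3 := length_lt_sz (qf (x, (prm (b ^ 3), (j, blk (prm (b ^ 3) * prm (b ^ 3)) i σ))))
        have h4 : (qf (x, (prm (b ^ 3), (j, blk (prm (b ^ 3) * prm (b ^ 3)) i σ)))).length ≤
          b ^ e1 := by have := he1 b hb2; omega
        calc ((qf (x, (prm (b ^ 3), (j, blk (prm (b ^ 3) * prm (b ^ 3)) i σ)))).length : ℝ)
            ≤ ((b ^ e1 : ℕ) : ℝ) := by exact_mod_cast h4
          _ = (b : ℝ) ^ (e1 : ℝ) := by push_cast; rw [Real.rpow_natCast]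
          _ ≤ (b : ℝ) ^ ((e : ℝ) * ε) :=
              Real.rpow_le_rpow_of_exponent_le (by exact_mod_cast hb0) heε
          _ = ((b ^ e : ℕ) : ℝ) ^ ε := by
              rw [Real.rpow_mul (by positivity), Real.rpow_natCast]
              push_cast
              rfl

end Pool.Agent.W901.RL
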