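import Pool.Agent.W901.RL.Easy
import Pool.Agent.W901.RL.GB

/-!
# The parity game
-/

set_option autoImplicit false

namespace Pool.Agent.W901.RL

open Finset Pool.Agent.NPC Pool.Agent.H579R2.Spt Pool.Agent.H251R5.PQ Pool.Agent.W901.AT
open Pool.Agent.W376.RL (sumBL_succ)

/-- The parity game: at least one prediction is made and the number of wrong ones is even. -/
def parG : OGame where
  pay h w := bif decide (h.length = w.length) && (decide (0 < made h) &&
    decide (wrong h w % 2 = 0)) then 2 else 0
  price _ := 1

theorem parG_le (h : List (Option Bool)) (w : List Bool) : parG.pay h w ≤ 2 := by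
  unfold parG
  dsimp only
  cases (decide (h.length = w.length) && (decide (0 < made h) && decide (wrong h w % 2 = 0))) <;>
    simp

theorem sum_sign (h : List (Option Bool)) (hm : 0 < made h) :
    ∑ w ∈ BL h.length, (-1 : ℤ) ^ wrong h w = 0 := by
  induction h with
  | nil => simp [made] at hm
  | cons a h ih =>
    rw [List.length_cons, sumBL_succ]
    rcases a with _ | a
    · have hm' : 0 < made h := by simpa [made] using hm
      have e : ∀ (b : Bool) (w : List Bool), wrong (none :: h) (b :: w) = wrong h w := by
        intro b w; simp [wrong]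
      simp only [e]
      rw [Finset.sum_add_distrib, ih hm', add_zero]
    · refine Finset.sum_eq_zero fun w _ => ?_
      cases a
      · have e1 : wrong (some false :: h) (true :: w) = wrong h w + 1 := by simp [wrong]
        have e2 : wrong (some false :: h) (false :: w) = wrong h w := by simp [wrong]
        rw [e1, e2, pow_succ]; ring
      · have e1 : wrong (some true :: h) (true :: w) = wrong h w := by simp [wrong]
        have e2 : wrong (some true :: h) (false :: w) = wrong h w + 1 := by simp [wrong]
        rw [e1, e2, pow_succ]; ring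

theorem parG_fair : parG.Fair := by
  have e1 : Poly (fun q : List (Option Bool) × List Bool => q.1) := NPC.Poly.fst NPC.Poly.id
  have e2 : Poly (fun q : List (Option Bool) × List Bool => q.2) := NPC.Poly.snd NPC.Poly.id
  refine ⟨UPoly.of_le ?_ (UPoly.const 2) (fun q => parG_le q.1 q.2), UPoly.const 1,
    ⟨Polynomial.X, fun h w hl => ?_⟩, fun m => one_pos, fun m h => ?_⟩
  · exact NPC.Poly.cond (NPC.Poly.and (NPC.Poly.decide_eq (NPC.Poly.length e1)
      (NPC.Poly.length e2)) (NPC.Poly.and (NPC.Poly.decide_lt (NPC.Poly.const 0)
        (made_poly e1).toPoly) (NPC.Poly.decide_eq (NPC.Poly.mod (wrong_poly e1 e2).toPoly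
          (NPC.Poly.const 2)) (NPC.Poly.const 0)))) (NPC.Poly.const 2) (NPC.Poly.const 0)
  · rw [Polynomial.eval_X] at hl
    unfold parG
    dsimp only
    rw [decide_eq_false (by omega : ¬ h.length = w.length)]
    rfl
  · by_cases h1 : h.length = m ∧ 0 < made h
    · obtain ⟨h1, h2⟩ := h1
      have h3 : ∀ w ∈ BL m, ((parG.pay h w : ℕ) : ℤ) = 1 + (-1) ^ wrong h w := by
        intro w hw
        rw [mem_BL] at hw
        unfold parG
        dsimp only
        rw [h1, hw, decide_eq_true rfl, decide_eq_true h2, Bool.true_and, Bool.true_and]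
        rcases Nat.even_or_odd (wrong h w) with h4 | h4
        · rw [h4.neg_one_pow, decide_eq_true (Nat.even_iff.1 h4)]
          rfl
        · rw [h4.neg_one_pow, decide_eq_false (by have := Nat.odd_iff.1 h4; omega)]
          rfl
      have h4 : ((∑ w ∈ BL m, parG.pay h w : ℕ) : ℤ) = 2 ^ m := by
        push_cast
        rw [Finset.sum_congr rfl h3, Finset.sum_add_distrib]
        have h5 := sum_sign h h2
        rw [h1] at h5
        rw [h5, Finset.sum_const, nsmul_eq_mul, card_BL]
        ring
      have h5 : ∑ w ∈ BL m, parG.pay h w = 2 ^ m := by exact_mod_cast h4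
      rw [h5]
      simp [parG]
    · have h2 : ∑ w ∈ BL m, parG.pay h w = 0 := by
        refine Finset.sum_eq_zero fun w hw => ?_
        rw [mem_BL] at hw
        unfold parG
        dsimp only
        rw [hw]
        rcases not_and_or.1 h1 with h3 | h3
        · rw [decide_eq_false h3]; rfl
        · rw [decide_eq_false h3]; simp
      rw [h2]
      exact Nat.zero_le _

theorem parG_pay (h : List (Option Bool)) (A : Set (List Bool)) (qs : List (List Bool)) :
    ((parG.pay h (answers A qs) : ℕ) : ℝ) = 2 * (if h.length = qs.length ∧ 0 < made h ∧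
      Even (wrong h (answers A qs)) then 1 else 0) := by
  have hl : (answers A qs).length = qs.length := by simp [answers]
  unfold parG
  dsimp only
  rw [hl]
  by_cases h1 : h.length = qs.length
  · by_cases h2 : 0 < made h
    · by_cases h3 : Even (wrong h (answers A qs))
      · rw [if_pos ⟨h1, h2, h3⟩, decide_eq_true h1, decide_eq_true h2,
          decide_eq_true (Nat.even_iff.1 h3)]
        norm_num
      · rw [if_neg (fun h => h3 h.2.2), decide_eq_false (fun h => h3 (Nat.even_iff.2 h))]
        simp
    · rw [if_neg (fun h => h2 h.2.1), decide_eq_false h2]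
      simp
  · rw [if_neg (fun h => h1 h.1), decide_eq_false h1]
    simp

theorem wins_of_parity {c K : ℕ} {A : Set (List Bool)} (h : ParityPredictable c K A) :
    WinsO parG c K A := by
  obtain ⟨g, ℓ, hg, h⟩ := h
  refine ⟨g, ℓ, hg, fun qs hm hl => ?_⟩
  have h1 := h qs hm hl
  unfold mean at h1 ⊢
  simp only [parG_pay]
  rw [← Finset.mul_sum, mul_div_assoc]
  refine le_trans (le_of_eq ?_) (mul_le_mul_of_nonneg_left h1 (by norm_num : (0 : ℝ) ≤ 2))
  have h2 : (0 : ℝ) < (qs.length : ℝ) ^ c := by
    have : (0 : ℝ) < qs.length := by exact_mod_cast (by omega : 0 < qs.length)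
    positivity
  simp only [parG, Nat.cast_one]
  field_simp

theorem parity_of_solvable {A : Set (List Bool)} (h : Solvable A) {c : ℕ} (hc : 1 ≤ c) (K : ℕ) :
    ParityPredictable c K A := by
  obtain ⟨g, ℓ, hg, h⟩ := h
  refine ⟨g, ℓ, hg, fun qs hm _ => ?_⟩
  have h1 := eight_bad (three_le_bits hm) (h qs (by
    rintro rfl; simp at hm))
  have hl : (answers A qs).length = qs.length := by simp [answers]
  have h2 := mean_ge (v := (1 : ℝ)) zero_le_one
    (F := fun r => if (g (pairBits (bits qs) r)).length = qs.length ∧
          0 < made (g (pairBits (bits qs) r)) ∧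
          Even (wrong (g (pairBits (bits qs) r)) (answers A qs)) then (1 : ℝ) else 0)
    (fun r => by split_ifs <;> norm_num) (fun r hr => ?_) h1
  · refine le_trans ?_ h2
    have h3 := one_div_pow_le hm hc
    have h4 : 1 / (2 * (qs.length : ℝ) ^ c) = 1 / 2 * (1 / (qs.length : ℝ) ^ c) := by
      rw [one_div_mul_one_div]
    rw [h4]
    linarith
  · have h3 : g (pairBits (bits qs) r) = (answers A qs).map some := not_not.1 hr
    rw [h3, List.length_map, made_map_some, wrong_self, hl,
      if_pos ⟨rfl, by omega, Even.zero⟩]

end Pool.Agent.W901.RL
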