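import Pool.Agent.W901.RL.MS
import Pool.Agent.W901.RL.Parity
import Pool.Agent.W901.RL.LD
import Pool.Agent.W901.RL.Easy
import Pool.Agent.W790.RL.IND
import Pool.Agent.W150.RL.Gram
import Pool.Agent.W85.RL.Lab
import Pool.Agent.W320.RL.PolyS
import Pool.Agent.W690.RL.RPW
import Pool.Agent.W462.RL.TW
import Pool.Agent.W311.RL.MOM
import Pool.Agent.W790.RL.LMOM
import Pool.Agent.W32.RL.Samp
import Pool.Agent.W174.RL.Layer
import Pool.Agent.W351.RL.E1L

/-!
# The laws of randomised predictions of the answers to `NP` questions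
-/

set_option autoImplicit false

namespace Pool.Agent.W901.RL

open Finset Pool.Agent.NPC Pool.Agent.H579R2.Spt Pool.Agent.H251R5.PQ Pool.Agent.W901.AT

theorem the_engine {A : Set (List Bool)} (hA : NPHard A)
    (h : ∀ (pp : Polynomial ℕ) (qf : List Bool × (ℕ × (ℕ × List Bool)) → List Bool), Poly qf →
      Recipe A pp qf) :
    ∀ L : Set (List Bool), InNP L → Pool.Agent.W920.NL.InRP L :=
  engine Pool.Agent.W790.RL.IND Pool.Agent.W85.RL.LAB Pool.Agent.W320.RL.poly
    Pool.Agent.W690.RL.rpw hA h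

/-- **Mean square, parities and fair games.** -/
theorem game_law {c : ℕ} (hc : 1 ≤ c) {ε : ℝ} (hε : 0 < ε) {G : Game} (hG : G.Fair) : List.TFAE
    [∀ L : Set (List Bool), InNP L → Pool.Agent.W920.NL.InRP L,
      ∀ L : Set (List Bool), InNP L → Pool.Agent.W920.NL.InBPP L,
      ∃ A : Set (List Bool), NPHard A ∧ MeanPredictable c ε A,
      ∃ A : Set (List Bool), NPHard A ∧ ∀ K : ℕ, ParityPredictable c K A,
      ∃ A : Set (List Bool), NPHard A ∧ ∀ K : ℕ, Wins G c K A,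
      ∀ A : Set (List Bool), InNP A → Solvable A] := by
  have h12 := (Pool.Agent.W920.NL.rand_law (δ := 1 / 2) (ε := 1) (by norm_num) le_rfl
    one_pos).out 0 1
  tfae_have 1 ↔ 2 := h12
  tfae_have 3 → 1 := fun ⟨A, hA, h⟩ => the_engine hA
    (ms_recipe Pool.Agent.W150.RL.gram Pool.Agent.W762.RL.cheb hε h)
  tfae_have 4 → 1 := fun ⟨A, hA, h⟩ => the_engine hA
    (game_recipe Pool.Agent.W462.RL.tw Pool.Agent.W311.RL.mom Pool.Agent.W762.RL.cheb parG_fair
      fun K => wins_of_parity (h K))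
  tfae_have 5 → 1 := fun ⟨A, hA, h⟩ => the_engine hA
    (game_recipe Pool.Agent.W462.RL.tw Pool.Agent.W311.RL.mom Pool.Agent.W762.RL.cheb hG.toO
      fun K => (h K).toO)
  tfae_have 1 → 6 := fun h A hA => solvable_of_inRP (h A hA)
  tfae_have 6 → 3 := fun h => by
    obtain ⟨hA1, hA2⟩ := Pool.Agent.NPC.H545KS.sat_complete
    exact ⟨_, hA2, meanPredictable_of_solvable (h _ hA1) hc ε⟩
  tfae_have 6 → 4 := fun h => by
    obtain ⟨hA1, hA2⟩ := Pool.Agent.NPC.H545KS.sat_complete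
    exact ⟨_, hA2, fun K => parity_of_solvable (h _ hA1) hc K⟩
  tfae_have 6 → 5 := fun h => by
    obtain ⟨hA1, hA2⟩ := Pool.Agent.NPC.H545KS.sat_complete
    exact ⟨_, hA2, fun K => wins_of_solvable (h _ hA1) hG hc K⟩
  tfae_finish

/-- **The exact threshold for success probability `1 / poly`.** -/
theorem reach_law {f : ℕ → ℝ} (hf : ∀ m, 1 ≤ m → f m ≤ Real.sqrt m) {ε : ℝ} (hε : 0 < ε)
    (hlim : Filter.Tendsto (fun m : ℕ => f m / Real.sqrt (Real.log m)) Filter.atTop
      Filter.atTop) : List.TFAE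
    [∀ L : Set (List Bool), InNP L → Pool.Agent.W920.NL.InRP L,
      ∀ L : Set (List Bool), InNP L → Pool.Agent.W920.NL.InBPP L,
      ∃ A : Set (List Bool), NPHard A ∧ Reachable f ε A,
      ∀ A : Set (List Bool), InNP A → Solvable A] := by
  have h12 := (Pool.Agent.W920.NL.rand_law (δ := 1 / 2) (ε := 1) (by norm_num) le_rfl
    one_pos).out 0 1
  tfae_have 1 ↔ 2 := h12
  tfae_have 3 → 1 := fun ⟨A, hA, h⟩ => the_engine hA
    (ld_recipe (Pool.Agent.W351.RL.E1L Pool.Agent.W790.RL.LMOM Pool.Agent.W32.RL.samp_main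
      Pool.Agent.W174.RL.layer) Pool.Agent.W762.RL.cheb hε hlim h)
  tfae_have 1 → 4 := fun h A hA => solvable_of_inRP (h A hA)
  tfae_have 4 → 3 := fun h => by
    obtain ⟨hA1, hA2⟩ := Pool.Agent.NPC.H545KS.sat_complete
    exact ⟨_, hA2, reachable_of_solvable (h _ hA1) hf ε⟩
  tfae_finish

end Pool.Agent.W901.RL
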