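import Pool.Agent.W901.RL.Sc
import Pool.Agent.W901.RL.Cnt
import Pool.Agent.W901.AT.Cov

/-!
# Predictions in mean square
-/

set_option autoImplicit false

namespace Pool.Agent.W901.RL

open Finset Pool.Agent.NPC Pool.Agent.H579R2.Spt Pool.Agent.H251R5.PQ Pool.Agent.W901.AT

/-- The payoff for predictions in mean square. -/
def psi (c : ℕ) (h : List (Option Bool)) (w : List Bool) : ℕ :=
  if h.length = w.length then 8 * w.length ^ c * (gap h w) ^ 2 / made h else 0

theorem psi_poly (c : ℕ) : Poly (fun q : List (Option Bool) × List Bool => psi c q.1 q.2) := by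
  unfold psi
  have e1 : Poly (fun q : List (Option Bool) × List Bool => q.1) := NPC.Poly.fst NPC.Poly.id
  have e2 : Poly (fun q : List (Option Bool) × List Bool => q.2) := NPC.Poly.snd NPC.Poly.id
  have e3 : Poly (fun q : List (Option Bool) × List Bool => q.2.length ^ c) := by
    have := ((UPoly.length e2).eval (Polynomial.X ^ c)).toPoly
    simpa using this
  have e4 : Poly (fun q : List (Option Bool) × List Bool => (gap q.1 q.2) ^ 2) := by
    have h1 := NPC.Poly.mul (gap_poly e1 e2) (gap_poly e1 e2)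
    have h2 : (fun q : List (Option Bool) × List Bool => (gap q.1 q.2) ^ 2) =
        fun q => gap q.1 q.2 * gap q.1 q.2 := funext fun q => sq _
    rw [h2]
    exact h1
  have h5 : Poly (fun q : List (Option Bool) × List Bool => bif decide (q.1.length = q.2.length)
      then 8 * q.2.length ^ c * (gap q.1 q.2) ^ 2 / made q.1 else 0) :=
    NPC.Poly.cond (NPC.Poly.decide_eq (NPC.Poly.length e1) (NPC.Poly.length e2))
      (NPC.Poly.div (NPC.Poly.mul (NPC.Poly.mul (NPC.Poly.const 8) e3) e4) (made_poly e1).toPoly)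
      (NPC.Poly.const 0)
  simpa only [Bool.cond_decide] using h5

theorem made_mul_psi_le (c : ℕ) (h : List (Option Bool)) (w : List Bool) :
    made h * psi c h w ≤ 8 * w.length ^ c * (gap h w) ^ 2 := by
  unfold psi
  split_ifs with e
  · exact Nat.mul_div_le _ _
  · simp

theorem psi_le {c : ℕ} {h : List (Option Bool)} {w : List Bool} :
    psi c h w ≤ 8 * w.length ^ c * w.length := by
  unfold psi
  split_ifs with e
  · apply Nat.div_le_of_le_mul
    have h1 := gap_le e
    have h2 := made_le h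
    rw [e] at h2
    calc 8 * w.length ^ c * gap h w ^ 2 ≤ 8 * w.length ^ c * (made h * w.length) := by
          apply Nat.mul_le_mul_left
          rw [sq]
          exact Nat.mul_le_mul h1 (h1.trans h2)
      _ = _ := by ring
  · simp

theorem made_mul_sum_psi_le (c p m : ℕ) (h : List (Option Bool)) (σ : List Bool) :
    ∀ W : List (List Bool),
      (made h : ℤ) * ((W.map (fun u => psi c h (row p m σ u))).sum : ℕ) ≤
        8 * ((m ^ c : ℕ) : ℤ) * (W.map (fun u => (excess h (row p m σ u)) ^ 2)).sum := by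
  intro W
  induction W with
  | nil => simp
  | cons u W ih =>
    have h5 := made_mul_psi_le c h (row p m σ u)
    rw [row_length] at h5
    have h6 : (made h : ℤ) * (psi c h (row p m σ u) : ℕ) ≤
        8 * ((m ^ c : ℕ) : ℤ) * (excess h (row p m σ u)) ^ 2 := by
      rw [← gap_sq]
      exact_mod_cast h5
    simp only [List.map_cons, List.sum_cons, Nat.cast_add, mul_add] at ih ⊢
    linarith

/-- Good seeds for the payoff `psi`, from nearly orthogonal labels. -/
theorem e1_of_gram (hG : S_GRAM) {P : Par} {c : ℕ} (hp : P.p.Prime) (hnp : P.n < P.p)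
    (hm : 0 < P.m) (hTh : P.Th = P.R * (8 * P.m ^ c + 4)) (hZ : P.Z = 8 * P.m ^ c + 4)
    (hN : 64 * (16 * (P.n * P.Z)) * P.m ^ 2 * (P.m ^ c) ^ 2 ≤ P.N0) : E1 (psi c) P := by
  intro j hj W hnd hlen hN0 hN2
  have h1 := hG P.p P.m j (16 * (P.n * P.Z)) (P.m ^ c) W hp (by omega) (by positivity) hnd hlen
    (by omega)
  refine le_trans (Nat.mul_le_mul_left _ (Set.ncard_le_ncard ?_ ?_)) h1
  · rintro σ ⟨hσ, hb⟩
    refine ⟨hσ, fun h2 => hb ?_⟩
    intro h
    have key : (W.map (fun u => psi c h (row P.p P.m σ u))).sum ≤ (8 * P.m ^ c + 1) * W.length := by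
      by_cases hl : h.length = P.m
      · by_cases hs : made h = 0
        · have h3 : (W.map (fun u => psi c h (row P.p P.m σ u))).sum = 0 := by
            apply List.sum_eq_zero
            intro y hy
            obtain ⟨u, _, rfl⟩ := List.mem_map.1 hy
            unfold psi
            rw [hs]
            simp
          rw [h3]
          exact Nat.zero_le _
        · have h3 := h2 h hl
          have h4 := made_mul_sum_psi_le c P.p P.m h σ W
          have h5 : (made h : ℤ) * ((W.map (fun u => psi c h (row P.p P.m σ u))).sum : ℕ) ≤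
              (made h : ℤ) * (((8 * P.m ^ c + 1) * W.length : ℕ) : ℤ) := by
            refine h4.trans (h3.trans (le_of_eq ?_))
            push_cast
            ring
          have h6 : (0 : ℤ) < made h := by exact_mod_cast Nat.pos_of_ne_zero hs
          exact_mod_cast le_of_mul_le_mul_left h5 h6
      · have h3 : (W.map (fun u => psi c h (row P.p P.m σ u))).sum = 0 := by
          apply List.sum_eq_zero
          intro y hy
          obtain ⟨u, _, rfl⟩ := List.mem_map.1 hy
          unfold psi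
          rw [row_length, if_neg hl]
        rw [h3]
        exact Nat.zero_le _
    rw [hTh, hZ]
    have e : 8 * P.m ^ c + 4 - 1 = 8 * P.m ^ c + 3 := rfl
    rw [e]
    calc P.R * (8 * P.m ^ c + 4) * (W.map (fun u => psi c h (row P.p P.m σ u))).sum
        ≤ P.R * (8 * P.m ^ c + 4) * ((8 * P.m ^ c + 1) * W.length) := Nat.mul_le_mul_left _ key
      _ ≤ P.R * (8 * P.m ^ c + 4) * ((8 * P.m ^ c + 3) * W.length) :=
          Nat.mul_le_mul_left _ (Nat.mul_le_mul_right _ (by omega))
      _ = _ := by ring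
  · exact ((BL (P.m * (P.p * P.p))).finite_toSet).subset fun c hc => by simpa using hc.1

theorem dev_le_psi {c : ℕ} {h : List (Option Bool)} {w : List Bool} (hw : 0 < w.length) :
    8 * (w.length : ℝ) ^ c * dev h w ≤ psi c h w + 1 := by
  unfold dev psi
  split_ifs with e
  · by_cases hs : made h = 0
    · rw [hs]; simp
    · have h1 : 0 < made h := Nat.pos_of_ne_zero hs
      have h2 := Nat.lt_mul_div_succ (8 * w.length ^ c * gap h w ^ 2) h1
      have h3 : ((8 * w.length ^ c * gap h w ^ 2 : ℕ) : ℝ) <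
          ((made h * (8 * w.length ^ c * gap h w ^ 2 / made h + 1) : ℕ) : ℝ) := by exact_mod_cast h2
      have h4 : ((gap h w : ℕ) : ℝ) ^ 2 = (excess h w : ℝ) ^ 2 := by
        have := gap_sq h w
        exact_mod_cast this
      push_cast at h3
      rw [h4] at h3
      have h5 : (0 : ℝ) < made h := by exact_mod_cast h1
      have h6 : 8 * (w.length : ℝ) ^ c * ((excess h w : ℝ) ^ 2 / made h) =
          8 * (w.length : ℝ) ^ c * (excess h w : ℝ) ^ 2 / made h := by ring
      rw [h6, div_le_iff₀ h5]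
      linarith
  · simp

theorem ms_recipe (hG : S_GRAM) (hC : S_CHEB) {c : ℕ} {ε : ℝ} (hε : 0 < ε)
    {A : Set (List Bool)} (hA : MeanPredictable c ε A) (pp : Polynomial ℕ)
    (qf : List Bool × (ℕ × (ℕ × List Bool)) → List Bool) (hqf : Poly qf) : Recipe A pp qf := by
  obtain ⟨g, ℓ, hg, hm⟩ := hA
  have hgp : Poly g := poly_of_bits' hg
  obtain ⟨S, hS⟩ := qsize hqf 1
  obtain ⟨e1, he1⟩ := exists_pow_bound S
  set e : ℕ := ⌈(e1 : ℝ) / ε⌉₊ + 1 with he
  have heε : (e1 : ℝ) ≤ e * ε := by
    have h1 : (e1 : ℝ) / ε ≤ (e : ℝ) := by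
      rw [he]
      push_cast
      linarith [Nat.le_ceil ((e1 : ℝ) / ε)]
    rwa [div_le_iff₀ hε] at h1
  set Zp : Polynomial ℕ := 8 * (Polynomial.X ^ e) ^ c + 4 with hZp
  set Rp : Polynomial ℕ := 16 * (Polynomial.X * Zp) *
    (8 * (Polynomial.X ^ e) ^ c * Polynomial.X ^ e) ^ 2 with hRp
  set Mp : Polynomial ℕ := 64 * (16 * Polynomial.X) * (Polynomial.X ^ e) ^ 2 *
    ((Polynomial.X ^ e) ^ c) ^ 2 with hMp
  set Lp : Polynomial ℕ := ℓ.comp (Polynomial.X ^ e * (S + 1) + 1) with hLp
  refine recipe_of ℓ (psi_poly c) hgp 1 e Rp Lp Mp Zp (Rp * Zp) 2 fun b x hb hx hn => ?_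
  have eZ : Zp.eval b = 8 * (b ^ e) ^ c + 4 := by simp [hZp]
  have eR : Rp.eval b = 16 * (b * (8 * (b ^ e) ^ c + 4)) * (8 * (b ^ e) ^ c * b ^ e) ^ 2 := by
    simp [hRp, eZ]
  have eM : Mp.eval b = 64 * (16 * b) * (b ^ e) ^ 2 * ((b ^ e) ^ c) ^ 2 := by simp [hMp]
  have eL : Lp.eval b = ℓ.eval (b ^ e * (S.eval b + 1) + 1) := by simp [hLp]
  have hb0 : 0 < b := by omega
  have hpr := prm_spec (m := b ^ 1) (by simp; omega)
  have hbe : 2 ≤ b ^ e := by
    calc 2 ≤ b := hb
      _ = b ^ 1 := (pow_one b).symm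
      _ ≤ b ^ e := Nat.pow_le_pow_right hb0 (by omega)
  have hsz : ∀ j ≤ pp.eval x.length, ∀ s : List Bool, s.length = prm (b ^ 1) * prm (b ^ 1) →
      sz (qf (x, (prm (b ^ 1), (j, s)))) ≤ S.eval b := fun j hj s hs =>
    hS b _ j x s hx hpr.2.2 (hj.trans hn) hs
  refine ⟨by rw [eZ]; omega, by rw [eM]; positivity, by rw [eR]; positivity,
    by rw [Polynomial.eval_mul, eR, eZ]; positivity, ?_, ?_⟩
  · refine e1_of_gram hG hpr.1 ?_ (by simp only [mkPar]; positivity) ?_ ?_ ?_
    · simp only [mkPar]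
      have := hpr.2.1
      simp only [pow_one] at this ⊢
      omega
    · simp only [mkPar, Polynomial.eval_mul, eZ]
    · simp only [mkPar, eZ]
    · simp only [mkPar]
      rw [eM]
      have h1 : pp.eval x.length * Zp.eval b ≤ b * Zp.eval b := Nat.mul_le_mul_right _ hn
      calc 64 * (16 * (pp.eval x.length * Zp.eval b)) * (b ^ e) ^ 2 * ((b ^ e) ^ c) ^ 2
          ≤ 64 * (16 * (b * Zp.eval b)) * (b ^ e) ^ 2 * ((b ^ e) ^ c) ^ 2 := by gcongr
        _ = _ := by ring
  · refine e2_of_cheb hC 1 (8 * (b ^ e) ^ c * b ^ e) (8 * (b ^ e) ^ c + 7) 3 ?_ (by omega) ?_ ?_ ?_ ?_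
    · intro h w hw
      have h1 := psi_le (c := c) (h := h) (w := w)
      have h2 : w.length = b ^ e := hw
      rw [h2] at h1
      omega
    · simp only [mkPar, Polynomial.eval_mul, eZ]
      have h1 : 0 < Rp.eval b := by rw [eR]; positivity
      have h2 : 8 * (b ^ e) ^ c + 7 - 3 = 8 * (b ^ e) ^ c + 4 := rfl
      rw [h2]
      have h3 : 0 < Rp.eval b * (8 * (b ^ e) ^ c + 4) := by positivity
      omega
    · simp only [mkPar]
      rw [eR, eZ]
      have h1 : pp.eval x.length * (8 * (b ^ e) ^ c + 4) ≤ b * (8 * (b ^ e) ^ c + 4) :=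
        Nat.mul_le_mul_right _ hn
      calc 16 * (pp.eval x.length * (8 * (b ^ e) ^ c + 4)) * (8 * (b ^ e) ^ c * b ^ e) ^ 2
          ≤ 16 * (b * (8 * (b ^ e) ^ c + 4)) * (8 * (b ^ e) ^ c * b ^ e) ^ 2 := by gcongr
        _ ≤ _ := Nat.le_mul_of_pos_right _ (by norm_num)
    · intro j hj σ hσ
      rw [bits_length]
      simp only [mkPar] at hj hσ ⊢
      rw [eL]
      refine eval_mono ℓ ?_
      exact sz_qlist (P := mkPar 1 e Rp Lp Mp Zp (Rp * Zp) (pp.eval x.length) b) hσ
        (fun s hs => hsz j hj s hs)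
    · intro j hj σ hσ
      set qs := qlist qf (mkPar 1 e Rp Lp Mp Zp (Rp * Zp) (pp.eval x.length) b) x j σ with hqs
      have hql : qs.length = b ^ e := by simp [hqs, qlist, mkPar]
      have h1 := hm qs (by rw [hql]; exact hbe) ?_
      · rw [hql] at h1
        set L := ℓ.eval (bits qs).length with hL
        unfold mean at h1
        have hQ : (0 : ℝ) < ((b ^ e : ℕ) : ℝ) ^ c := by positivity
        rw [le_div_iff₀ (by positivity)] at h1
        have h2 : ∀ r ∈ BL L, 8 * ((b ^ e : ℕ) : ℝ) ^ c *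
            dev (g (pairBits (bits qs) r)) (answers A qs) ≤
              (psi c (g (pairBits (bits qs) r)) (answers A qs) : ℝ) + 1 := by
          intro r hr
          have h3 : (answers A qs).length = b ^ e := by simp [answers, hql]
          have h4 := dev_le_psi (c := c) (h := g (pairBits (bits qs) r)) (w := answers A qs)
            (by rw [h3]; positivity)
          rwa [h3] at h4
        have h3 := Finset.sum_le_sum h2
        rw [← Finset.mul_sum, Finset.sum_add_distrib, Finset.sum_const, nsmul_eq_mul, mul_one] at h3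
        have h4 : ((BL L).card : ℝ) = 2 ^ L := by
          have := card_BL L
          exact_mod_cast this
        rw [h4] at h3
        have h5 : 8 * ((b ^ e : ℕ) : ℝ) ^ c * ((1 + 1 / ((b ^ e : ℕ) : ℝ) ^ c) * 2 ^ L) ≤
            8 * ((b ^ e : ℕ) : ℝ) ^ c * ∑ r ∈ BL L, dev (g (pairBits (bits qs) r)) (answers A qs) :=
          mul_le_mul_of_nonneg_left h1 (by positivity)
        have h6 : 8 * ((b ^ e : ℕ) : ℝ) ^ c * ((1 + 1 / ((b ^ e : ℕ) : ℝ) ^ c) * 2 ^ L) =
            (8 * ((b ^ e : ℕ) : ℝ) ^ c + 8) * 2 ^ L := by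
          field_simp
        rw [h6] at h5
        have h7 : (8 * ((b ^ e : ℕ) : ℝ) ^ c + 7) * 2 ^ L ≤
            ∑ r ∈ BL L, (psi c (g (pairBits (bits qs) r)) (answers A qs) : ℝ) := by
          have : (8 * ((b ^ e : ℕ) : ℝ) ^ c + 8) * 2 ^ L =
            (8 * ((b ^ e : ℕ) : ℝ) ^ c + 7) * 2 ^ L + 2 ^ L := by ring
          linarith
        have h8 : (((8 * (b ^ e) ^ c + 7) * 2 ^ L : ℕ) : ℝ) ≤
            ((∑ r ∈ BL L, 1 * psi c (g (pairBits (bits qs) r)) (answers A qs) : ℕ) : ℝ) := by
          push_cast at h7 ⊢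
          simpa using h7
        exact_mod_cast h8
      · intro y hy
        rw [hql]
        obtain ⟨i, hi, rfl⟩ := List.mem_map.1 hy
        have h2 := hsz j hj _ (blk_length (List.mem_range.1 hi) hσ.ge)
        have h3 := length_lt_sz (qf (x, (prm (b ^ 1), (j, blk (prm (b ^ 1) * prm (b ^ 1)) i σ))))
        have h4 : (qf (x, (prm (b ^ 1), (j, blk (prm (b ^ 1) * prm (b ^ 1)) i σ)))).length ≤
          b ^ e1 := by have := he1 b hb; omega
        calc ((qf (x, (prm (b ^ 1), (j, blk (prm (b ^ 1) * prm (b ^ 1)) i σ)))).length : ℝ)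
            ≤ ((b ^ e1 : ℕ) : ℝ) := by exact_mod_cast h4
          _ = (b : ℝ) ^ (e1 : ℝ) := by push_cast; rw [Real.rpow_natCast]
          _ ≤ (b : ℝ) ^ ((e : ℝ) * ε) :=
              Real.rpow_le_rpow_of_exponent_le (by exact_mod_cast hb0) heε
          _ = ((b ^ e : ℕ) : ℝ) ^ ε := by
              rw [Real.rpow_mul (by positivity), Real.rpow_natCast]
              push_cast
              rfl

end Pool.Agent.W901.RL
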