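import Pool.Agent.W901.RL.Siz

/-!
# Scores: from the mean payoff to the score of the right answers
-/

set_option autoImplicit false

namespace Pool.Agent.W901.RL

open Finset Pool.Agent.NPC Pool.Agent.H579R2.Spt Pool.Agent.H251R5.PQ Pool.Agent.W901.AT

theorem sum_map_mul (l : List ℕ) (μ : ℕ) (f : ℕ → ℕ) :
    (l.map (fun t => μ * f t)).sum = μ * (l.map f).sum := by
  induction l with
  | nil => simp
  | cons a l ih => simp [ih, mul_add]

/-- The score of the right answers is large with high probability, by Chebyshev's inequality. -/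
theorem e2_of_cheb (hC : S_CHEB) {A : Set (List Bool)} {Ψ : List (Option Bool) → List Bool → ℕ}
    {g : List Bool → List (Option Bool)} {ℓ : Polynomial ℕ}
    {qf : List Bool × (ℕ × (ℕ × List Bool)) → List Bool} {P : Par} {x : List Bool}
    (μ B lo d : ℕ) (hB : ∀ h w, w.length = P.m → μ * Ψ h w ≤ B) (hd : d ≤ lo)
    (hTh : μ * (P.Th - 1) < P.R * (lo - d)) (hR : 16 * (P.n * P.Z) * B ^ 2 ≤ P.R * d ^ 2)
    (hL : ∀ j ≤ P.n, ∀ σ : List Bool, σ.length = P.m * (P.p * P.p) →
      ℓ.eval (bits (qlist qf P x j σ)).length ≤ P.Lc)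
    (hm : ∀ j ≤ P.n, ∀ σ : List Bool, σ.length = P.m * (P.p * P.p) →
      lo * 2 ^ ℓ.eval (bits (qlist qf P x j σ)).length ≤
        ∑ r ∈ BL (ℓ.eval (bits (qlist qf P x j σ)).length),
          μ * Ψ (g (pairBits (bits (qlist qf P x j σ)) r)) (answers A (qlist qf P x j σ))) :
    E2 A Ψ g ℓ qf P x := by
  intro j hj σ hσ
  set qs := qlist qf P x j σ with hqs
  have hql : (answers A qs).length = P.m := by simp [answers, hqs, qlist]
  have h1 := hC (fun r => μ * Ψ (g (pairBits (bits qs) r)) (answers A qs)) B P.R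
    (16 * (P.n * P.Z)) P.Lc (ℓ.eval (bits qs).length) lo d (fun r => hB _ _ hql) (hL j hj σ hσ) hd
    (hm j hj σ hσ) hR
  refine le_trans (Nat.mul_le_mul_left _ (Set.ncard_le_ncard ?_ ?_)) h1
  · rintro c ⟨hc, hb⟩
    refine ⟨hc, fun h2 => hb ?_⟩
    unfold score
    rw [sum_map_mul] at h2
    by_contra h3
    push Not at h3
    have h4 : μ * ((List.range P.R).map (fun t => Ψ (g (pairBits (bits qs)
      ((blk P.Lc t c).take (ℓ.eval (bits qs).length)))) (answers A qs))).sum ≤ μ * (P.Th - 1) :=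
      Nat.mul_le_mul_left _ (by omega)
    omega
  · exact ((BL (P.R * P.Lc)).finite_toSet).subset fun c hc => by
      simpa using hc.1

end Pool.Agent.W901.RL
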