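import Pool.Agent.W901.RL.Eng

/-!
# Sizes of the questions; parameters given by polynomials
-/

set_option autoImplicit false

namespace Pool.Agent.W901.RL

open Finset Pool.Agent.NPC Pool.Agent.H579R2.Spt Pool.Agent.H251R5.PQ Pool.Agent.W901.AT

theorem qsize {qf : List Bool × (ℕ × (ℕ × List Bool)) → List Bool} (hq : Poly qf) (a : ℕ) :
    ∃ S : Polynomial ℕ, ∀ (b p j : ℕ) (x s : List Bool), x.length ≤ b → p ≤ 2 * b ^ a → j ≤ b →
      s.length = p * p → sz (qf (x, (p, (j, s)))) ≤ S.eval b := by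
  obtain ⟨p1, hp1⟩ := hq.sz_le
  refine ⟨p1.comp (8 * Polynomial.X + 8 * Polynomial.X ^ a + 16 * (Polynomial.X ^ a) ^ 2 + 7),
    fun b p j x s hx hp hj hs => ?_⟩
  refine (hp1 _).trans ?_
  rw [Polynomial.eval_comp]
  apply eval_mono
  rw [sz_pair, sz_pair, sz_pair]
  have s1 := sz_listBool_le x
  have s2 : sz p ≤ 4 * p + 1 := (sz_nat_le p).trans (by have := NPC.Poly.size_le_self p; omega)
  have s3 : sz j ≤ 4 * j + 1 := (sz_nat_le j).trans (by have := NPC.Poly.size_le_self j; omega)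
  have s4 := sz_listBool_le s
  simp only [Polynomial.eval_add, Polynomial.eval_mul, Polynomial.eval_X,
      Polynomial.eval_pow, Polynomial.eval_ofNat]
  have s5 : p * p ≤ 4 * (b ^ a) ^ 2 := by
    have := Nat.mul_le_mul hp hp
    nlinarith
  omega

theorem sz_qlist {qf : List Bool × (ℕ × (ℕ × List Bool)) → List Bool} {P : Par}
    {x σ : List Bool} {j M : ℕ} (hσ : σ.length = P.m * (P.p * P.p))
    (h : ∀ s : List Bool, s.length = P.p * P.p → sz (qf (x, (P.p, (j, s)))) ≤ M) :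
    sz (qlist qf P x j σ) ≤ P.m * (M + 1) + 1 := by
  have h1 := sz_le_length_mul (qlist qf P x j σ) M (fun y hy => by
    obtain ⟨i, hi, rfl⟩ := List.mem_map.1 hy
    exact h _ (blk_length (List.mem_range.1 hi) hσ.ge))
  have h2 : (qlist qf P x j σ).length = P.m := by simp [qlist]
  rwa [h2] at h1

/-- The parameters for the value `b`. -/
def mkPar' (a g : ℕ) (Rp Lp Mp Zp : Polynomial ℕ) (T : ℕ → ℕ) (n b : ℕ) : Par :=
  ⟨n, prm (b ^ a), b ^ g, Rp.eval b, Lp.eval b, Zp.eval b * Mp.eval b, Zp.eval b, T b⟩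

/-- Recipes from parameters given by polynomials and a threshold given by a function. -/
theorem recipe_of' {A : Set (List Bool)} {pp : Polynomial ℕ}
    {qf : List Bool × (ℕ × (ℕ × List Bool)) → List Bool}
    {Ψ : List (Option Bool) → List Bool → ℕ} {g : List Bool → List (Option Bool)}
    (ℓ : Polynomial ℕ) (hΨ : Poly (fun q : List (Option Bool) × List Bool => Ψ q.1 q.2))
    (hg : Poly g) (a e : ℕ) (Rp Lp Mp Zp : Polynomial ℕ) (T : ℕ → ℕ)
    (hT : Poly (fun z : List Unit => T z.length)) (C : ℕ)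
    (h : ∀ (b : ℕ) (x : List Bool), C ≤ b → x.length ≤ b → pp.eval x.length ≤ b →
      0 < Zp.eval b ∧ 0 < Mp.eval b ∧ 0 < Rp.eval b ∧ 0 < T b ∧
      E1 Ψ (mkPar' a e Rp Lp Mp Zp T (pp.eval x.length) b) ∧
      E2 A Ψ g ℓ qf (mkPar' a e Rp Lp Mp Zp T (pp.eval x.length) b) x) : Recipe A pp qf := by
  have hnU : UPoly (fun x : List Bool => pp.eval x.length) :=
    (UPoly.length NPC.Poly.id).eval pp
  have hbU : UPoly (fun x : List Bool => x.length + pp.eval x.length + C) :=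
    ((UPoly.length NPC.Poly.id).add hnU).add (UPoly.const C)
  have hpowU : ∀ m : ℕ, UPoly (fun x : List Bool => (x.length + pp.eval x.length + C) ^ m) := by
    intro m
    have h1 := hbU.eval (Polynomial.X ^ m)
    simpa using h1
  have hTP : Poly (fun x : List Bool => T (x.length + pp.eval x.length + C)) := by
    have h1 := hT.comp hbU
    simpa using h1
  refine ⟨Ψ, g, ℓ, fun x => mkPar' a e Rp Lp Mp Zp T (pp.eval x.length)
    (x.length + pp.eval x.length + C), hΨ, hg, prm_poly (hpowU a), hpowU e, hbU.eval Rp,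
    hbU.eval Lp, (hbU.eval Zp).mul (hbU.eval Mp), hbU.eval Zp, hTP, fun x => ?_⟩
  obtain ⟨h1, h2, h3, h4, h5, h6⟩ := h (x.length + pp.eval x.length + C) x (by omega) (by omega)
    (by omega)
  exact ⟨rfl, ⟨_, rfl⟩, h1, Nat.mul_pos h1 h2, h3, h4, h5, h6⟩

/-- The parameters for the value `b`. -/
def mkPar (a g : ℕ) (Rp Lp Mp Zp Tp : Polynomial ℕ) (n b : ℕ) : Par :=
  ⟨n, prm (b ^ a), b ^ g, Rp.eval b, Lp.eval b, Zp.eval b * Mp.eval b, Zp.eval b, Tp.eval b⟩

/-- Recipes from parameters given by polynomials. -/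
theorem recipe_of {A : Set (List Bool)} {pp : Polynomial ℕ}
    {qf : List Bool × (ℕ × (ℕ × List Bool)) → List Bool}
    {Ψ : List (Option Bool) → List Bool → ℕ} {g : List Bool → List (Option Bool)}
    (ℓ : Polynomial ℕ) (hΨ : Poly (fun q : List (Option Bool) × List Bool => Ψ q.1 q.2))
    (hg : Poly g) (a e : ℕ) (Rp Lp Mp Zp Tp : Polynomial ℕ) (C : ℕ)
    (h : ∀ (b : ℕ) (x : List Bool), C ≤ b → x.length ≤ b → pp.eval x.length ≤ b →
      0 < Zp.eval b ∧ 0 < Mp.eval b ∧ 0 < Rp.eval b ∧ 0 < Tp.eval b ∧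
      E1 Ψ (mkPar a e Rp Lp Mp Zp Tp (pp.eval x.length) b) ∧
      E2 A Ψ g ℓ qf (mkPar a e Rp Lp Mp Zp Tp (pp.eval x.length) b) x) : Recipe A pp qf :=
  recipe_of' ℓ hΨ hg a e Rp Lp Mp Zp (fun b => Tp.eval b)
    ((UPoly.length NPC.Poly.id).eval Tp).toPoly C h

end Pool.Agent.W901.RL
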